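import Pool.Agent.Helper3.EVC.Defs

set_option autoImplicit false

namespace EVC

open Polynomial

open Classical in
theorem jensen_aux (s : Multiset ℂ) (r : ℝ) (hr : 0 < r) :
    (2 : ℝ) ^ (s.filter (fun ρ => ‖ρ‖ ≤ r)).card *
      (s.map fun ρ => ‖((2 * r : ℝ) : ℂ)⁻¹ * ρ‖).prod ≤
      (s.map fun ρ => max 1 ‖((2 * r : ℝ) : ℂ)⁻¹ * ρ‖).prod := by
  induction s using Multiset.induction_on with
  | empty => simp
  | cons a s ih =>
    have hn : ‖((2 * r : ℝ) : ℂ)⁻¹ * a‖ = ‖a‖ / (2 * r) := by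
      rw [norm_mul, norm_inv, Complex.norm_real, Real.norm_eq_abs, abs_of_pos (by positivity)]
      field_simp
    have hpos : 0 ≤ (s.map fun ρ => ‖((2 * r : ℝ) : ℂ)⁻¹ * ρ‖).prod :=
      Multiset.prod_nonneg (by
        intro x hx
        obtain ⟨y, _, rfl⟩ := Multiset.mem_map.1 hx
        exact norm_nonneg _)
    rw [Multiset.map_cons, Multiset.map_cons, Multiset.prod_cons, Multiset.prod_cons]
    by_cases h : ‖a‖ ≤ r
    · rw [Multiset.filter_cons_of_pos (p := fun ρ : ℂ => ‖ρ‖ ≤ r) s h, Multiset.card_cons, pow_succ]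
      have h1 : 2 * ‖((2 * r : ℝ) : ℂ)⁻¹ * a‖ ≤ max 1 ‖((2 * r : ℝ) : ℂ)⁻¹ * a‖ := by
        refine le_trans ?_ (le_max_left _ _)
        rw [hn, ← mul_div_assoc, div_le_one (by positivity)]
        linarith
      calc _ = (2 * ‖((2 * r : ℝ) : ℂ)⁻¹ * a‖) * ((2 : ℝ) ^ (s.filter (fun ρ => ‖ρ‖ ≤ r)).card *
          (s.map fun ρ => ‖((2 * r : ℝ) : ℂ)⁻¹ * ρ‖).prod) := by ring
        _ ≤ _ := mul_le_mul h1 ih (by positivity) (by positivity)
    · rw [Multiset.filter_cons_of_neg (p := fun ρ : ℂ => ‖ρ‖ ≤ r) s h]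
      calc _ = ‖((2 * r : ℝ) : ℂ)⁻¹ * a‖ * ((2 : ℝ) ^ (s.filter (fun ρ => ‖ρ‖ ≤ r)).card *
          (s.map fun ρ => ‖((2 * r : ℝ) : ℂ)⁻¹ * ρ‖).prod) := by ring
        _ ≤ _ := mul_le_mul (le_max_right _ _) ih (by positivity) (by positivity)

theorem jensen {L : ℕ} {P : ℝ[X]} (h : Nice L P) {r : ℝ} (hr : 0 < r) :
    (2 : ℝ) ^ (cnt P r) ≤ P.eval (2 * r) := by
  classical
  set p : ℂ[X] := P.map (algebraMap ℝ ℂ) with hp
  set q : ℂ[X] := p.comp (C ((2 * r : ℝ) : ℂ) * X) with hq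
  have h2r : ((2 * r : ℝ) : ℂ) ≠ 0 := by
    rw [Ne, Complex.ofReal_eq_zero]; positivity
  have hcoeff : ∀ n, q.coeff n = ((P.coeff n * (2 * r) ^ n : ℝ) : ℂ) := by
    intro n
    rw [hq, comp_C_mul_X_coeff, hp, coeff_map]
    push_cast
    rfl
  have hnorm : ∀ n, ‖q.coeff n‖ = P.coeff n * (2 * r) ^ n := by
    intro n
    rw [hcoeff, Complex.norm_real, Real.norm_eq_abs, abs_of_nonneg]
    exact mul_nonneg (h.nn n) (by positivity)
  have hdeg : q.natDegree ≤ P.natDegree := by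
    rw [natDegree_le_iff_coeff_eq_zero]
    intro N hN
    rw [hcoeff, coeff_eq_zero_of_natDegree_lt hN]
    simp
  have hsum : (q.sum fun _ a => ‖a‖) = P.eval (2 * r) := by
    rw [q.sum_over_range' (fun _ => norm_zero) (P.natDegree + 1) (by omega),
      eval_eq_sum_range]
    exact Finset.sum_congr rfl fun n _ => hnorm n
  have hroots : q.roots = (Z P).map (fun x => ((2 * r : ℝ) : ℂ)⁻¹ * x) := by
    have h1 := roots_comp_C_mul_X_add_C p ((2 * r : ℝ) : ℂ) 0 (IsUnit.mk0 _ h2r)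
    rw [C_0, add_zero] at h1
    rw [hq, h1, Ring.inverse_eq_inv]
    simp only [sub_zero]
    rfl
  have h0 : 1 ≤ ‖q.leadingCoeff‖ * ((Z P).map fun ρ => ‖((2 * r : ℝ) : ℂ)⁻¹ * ρ‖).prod := by
    have h1 : q.coeff 0 = (-1) ^ q.natDegree * q.leadingCoeff * q.roots.prod :=
      (IsAlgClosed.splits q).coeff_zero_eq_leadingCoeff_mul_prod_roots
    have h2 : 1 ≤ ‖q.coeff 0‖ := by
      rw [hnorm]; simpa using h.one
    rw [h1, norm_mul, norm_mul, norm_pow, norm_neg, norm_one, one_pow, one_mul] at h2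
    refine h2.trans (le_of_eq ?_)
    rw [hroots]
    congr 1
    refine (map_multiset_prod (normHom : ℂ →*₀ ℝ) _).trans ?_
    rw [Multiset.map_map]
    rfl
  have hM := mahlerMeasure_le_sum_norm_coeff q
  rw [hsum, mahlerMeasure_eq_leadingCoeff_mul_prod_roots, hroots, Multiset.map_map] at hM
  have hc := jensen_aux (Z P) r hr
  have hcnt : (2 : ℝ) ^ (cnt P r) * 1 ≤ (2 : ℝ) ^ (cnt P r) *
      (‖q.leadingCoeff‖ * ((Z P).map fun ρ => ‖((2 * r : ℝ) : ℂ)⁻¹ * ρ‖).prod) :=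
    mul_le_mul_of_nonneg_left h0 (by positivity)
  have hc' : ‖q.leadingCoeff‖ * ((2 : ℝ) ^ (cnt P r) *
      ((Z P).map fun ρ => ‖((2 * r : ℝ) : ℂ)⁻¹ * ρ‖).prod) ≤
      ‖q.leadingCoeff‖ * ((Z P).map fun ρ => max 1 ‖((2 * r : ℝ) : ℂ)⁻¹ * ρ‖).prod :=
    mul_le_mul_of_nonneg_left hc (norm_nonneg _)
  calc (2 : ℝ) ^ (cnt P r) = (2 : ℝ) ^ (cnt P r) * 1 := (mul_one _).symm
    _ ≤ _ := hcnt
    _ = ‖q.leadingCoeff‖ * ((2 : ℝ) ^ (cnt P r) *
      ((Z P).map fun ρ => ‖((2 * r : ℝ) : ℂ)⁻¹ * ρ‖).prod) := by ring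
    _ ≤ _ := hc'
    _ ≤ P.eval (2 * r) := hM

end EVC
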