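import Pool.Agent.Helper3.EVC.Defs

set_option autoImplicit false

namespace EVC

open Polynomial

theorem Nice.eval_pos {L : ℕ} {P : ℝ[X]} (h : Nice L P) {r : ℝ} (hr : 0 < r) :
    0 < P.eval r := by
  have h1 : P.coeff 0 * r ^ 0 ≤ P.eval r := by
    rw [Polynomial.eval_eq_sum_range]
    apply Finset.single_le_sum (f := fun i => P.coeff i * r ^ i)
    · intro i _
      exact mul_nonneg (h.nn i) (pow_nonneg hr.le i)
    · simp
  have h2 := h.one
  rw [pow_zero, mul_one] at h1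
  linarith

theorem aeval_eq_eval_map (P : ℝ[X]) (z : ℂ) :
    aeval z P = (P.map (algebraMap ℝ ℂ)).eval z := (Polynomial.eval_map_algebraMap P z).symm

theorem eval_map_ofReal (P : ℝ[X]) (r : ℝ) :
    (P.map (algebraMap ℝ ℂ)).eval (r : ℂ) = ((P.eval r : ℝ) : ℂ) := by
  rw [Polynomial.eval_map, ← Complex.coe_algebraMap, Polynomial.eval₂_at_apply]

theorem Nice.sub_ne_zero {L : ℕ} {P : ℝ[X]} (h : Nice L P) {r : ℝ} (hr : 0 < r) {ρ : ℂ}
    (hρ : ρ ∈ Z P) : (r : ℂ) - ρ ≠ 0 := by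
  intro h0
  have h1 : ρ = (r : ℂ) := (sub_eq_zero.1 h0).symm
  have h2 : (P.map (algebraMap ℝ ℂ)).eval (r : ℂ) = 0 := by
    rw [← h1]
    exact (Polynomial.mem_roots'.1 hρ).2
  rw [eval_map_ofReal] at h2
  exact (h.eval_pos hr).ne' (Complex.ofReal_eq_zero.1 h2)

theorem prod_formula {L : ℕ} {P : ℝ[X]} (h : Nice L P) {r : ℝ} (θ : ℝ) (hr : 0 < r) :
    aeval (pt r θ) P = ((P.eval r : ℝ) : ℂ) *
      ((Z P).map fun ρ => 1 + (Complex.exp (θ * Complex.I) - 1) * p r ρ).prod := by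
  rw [aeval_eq_eval_map, ← eval_map_ofReal, (IsAlgClosed.splits _).eval_eq_prod_roots,
    (IsAlgClosed.splits (P.map (algebraMap ℝ ℂ))).eval_eq_prod_roots (r : ℂ), mul_assoc]
  congr 1
  rw [Z, ← Multiset.prod_map_mul]
  congr 1
  refine Multiset.map_congr rfl fun ρ hρ => ?_
  have h1 : (r : ℂ) - ρ ≠ 0 := h.sub_ne_zero hr hρ
  unfold pt p
  field_simp
  ring

theorem factor_mul (θ : ℝ) (q : ℂ) :
    (1 + (Complex.exp (θ * Complex.I) - 1) * q) *
      (1 + (Complex.exp (((-θ : ℝ) : ℂ) * Complex.I) - 1) * q) =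
      1 - 2 * (1 - (Real.cos θ : ℂ)) * (q * (1 - q)) := by
  have h1 : Complex.exp (θ * Complex.I) * Complex.exp (((-θ : ℝ) : ℂ) * Complex.I) = 1 := by
    rw [← Complex.exp_add]
    push_cast
    rw [show (θ : ℂ) * Complex.I + -(θ : ℂ) * Complex.I = 0 by ring, Complex.exp_zero]
  have h2 : Complex.exp (θ * Complex.I) + Complex.exp (((-θ : ℝ) : ℂ) * Complex.I) =
      2 * (Real.cos θ : ℂ) := by
    push_cast
    rw [Complex.cos]
    ring
  linear_combination q ^ 2 * h1 + (q - q ^ 2) * h2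

theorem conj_pt (r θ : ℝ) : (starRingEnd ℂ) (pt r θ) = pt r (-θ) := by
  unfold pt
  rw [map_mul, ← Complex.exp_conj, map_mul, Complex.conj_ofReal, Complex.conj_ofReal,
    Complex.conj_I]
  push_cast
  congr 2
  ring

theorem sq_formula {L : ℕ} {P : ℝ[X]} (h : Nice L P) {r : ℝ} (θ : ℝ) (hr : 0 < r) :
    ((‖aeval (pt r θ) P‖ ^ 2 : ℝ) : ℂ) = ((P.eval r) ^ 2 : ℝ) *
      ((Z P).map fun ρ => 1 - 2 * (1 - (Real.cos θ : ℂ)) * (p r ρ * (1 - p r ρ))).prod := by
  have h1 : ((‖aeval (pt r θ) P‖ ^ 2 : ℝ) : ℂ) = aeval (pt r θ) P * aeval (pt r (-θ)) P := by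
    have h2 : aeval (pt r (-θ)) P = (starRingEnd ℂ) (aeval (pt r θ) P) := by
      rw [← conj_pt, Polynomial.aeval_conj]
    rw [h2, Complex.mul_conj, Complex.normSq_eq_norm_sq]
  rw [h1, prod_formula h θ hr, prod_formula h (-θ) hr]
  have h3 : ((Z P).map fun ρ => 1 - 2 * (1 - (Real.cos θ : ℂ)) * (p r ρ * (1 - p r ρ))).prod =
      ((Z P).map fun ρ => 1 + (Complex.exp (θ * Complex.I) - 1) * p r ρ).prod *
      ((Z P).map fun ρ => 1 + (Complex.exp (((-θ : ℝ) : ℂ) * Complex.I) - 1) * p r ρ).prod := by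
    rw [← Multiset.prod_map_mul]
    congr 1
    refine Multiset.map_congr rfl fun ρ _ => ?_
    rw [factor_mul]
  rw [h3]
  push_cast
  ring

theorem mean_eq {L : ℕ} {P : ℝ[X]} (h : Nice L P) {r : ℝ} (hr : 0 < r) :
    ((Z P).map fun ρ => p r ρ).sum = (mean P r : ℂ) := by
  have h0 : (P.map (algebraMap ℝ ℂ)).eval (r : ℂ) ≠ 0 := by
    rw [eval_map_ofReal]
    exact Complex.ofReal_ne_zero.2 (h.eval_pos hr).ne'
  have h1 := (IsAlgClosed.splits (P.map (algebraMap ℝ ℂ))).eval_derivative_div_eval_of_ne_zero h0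
  rw [Polynomial.derivative_map, eval_map_ofReal, eval_map_ofReal] at h1
  unfold mean
  push_cast
  rw [mul_div_assoc, h1, ← Multiset.sum_map_mul_left]
  unfold Z
  congr 1
  refine Multiset.map_congr rfl fun ρ _ => ?_
  unfold p
  rw [mul_one_div]

theorem conj_Z (P : ℝ[X]) : (Z P).map (starRingEnd ℂ) = Z P := by
  unfold Z
  rw [← (IsAlgClosed.splits (P.map (algebraMap ℝ ℂ))).roots_map (starRingEnd ℂ),
    Polynomial.map_map]
  congr 2
  ext x
  simp

theorem V_eq {L : ℕ} {P : ℝ[X]} (_h : Nice L P) {r : ℝ} (_hr : 0 < r) :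
    ((Z P).map fun ρ => p r ρ * (1 - p r ρ)).sum = (V P r : ℂ) := by
  set S := ((Z P).map fun ρ => p r ρ * (1 - p r ρ)).sum with hS
  have h1 : (starRingEnd ℂ) S = S := by
    rw [hS, map_multiset_sum, Multiset.map_map]
    conv_rhs => rw [← conj_Z P, Multiset.map_map]
    congr 1
    refine Multiset.map_congr rfl fun ρ _ => ?_
    simp only [Function.comp_apply, p, map_mul, map_sub, map_one, map_div₀, Complex.conj_ofReal]
  rw [V, ← hS]
  exact ((Complex.conj_eq_iff_re).1 h1).symm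

end EVC
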