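import Pool.Agent.Helper3.EVC.Defs

/-!
# EVC, E20a: the mean is at most a constant times `L √r + log L`

`mean_le_of` takes the leaves E05 (`M_le`), E06 (`dist_ge`), E07 (`mean_eq`) as hypotheses.
-/

set_option autoImplicit false

namespace EVC
open Polynomial

/-- the roots are different from `0` -/
theorem Z_ne_zero {L : ℕ} {P : ℝ[X]} (h : Nice L P) {ρ : ℂ} (hρ : ρ ∈ Z P) : ρ ≠ 0 := by
  rintro rfl
  have h0 : (P.map (algebraMap ℝ ℂ)).eval 0 = 0 := (Polynomial.mem_roots'.1 hρ).2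
  rw [← Polynomial.coeff_zero_eq_eval_zero, Polynomial.coeff_map] at h0
  have h1 : P.coeff 0 = 0 := by
    simpa using h0
  have := h.one
  linarith

theorem norm_p_le {b r : ℝ} (hb : 0 < b) (hr : 0 < r) {ρ : ℂ} (hρ : ρ ≠ 0)
    (hd : b * (r + ‖ρ‖) ≤ ‖(r : ℂ) - ρ‖) : ‖p r ρ‖ ≤ b⁻¹ * min 1 (r / ‖ρ‖) := by
  have hn : 0 < ‖ρ‖ := norm_pos_iff.2 hρ
  have h1 : ‖p r ρ‖ ≤ r / (b * (r + ‖ρ‖)) := by
    unfold p
    rw [norm_div, Complex.norm_real, Real.norm_of_nonneg hr.le]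
    exact div_le_div_of_nonneg_left hr.le (by positivity) hd
  refine h1.trans ?_
  have h2 : r / (b * (r + ‖ρ‖)) = b⁻¹ * (r / (r + ‖ρ‖)) := by
    field_simp
  rw [h2]
  refine mul_le_mul_of_nonneg_left (le_min ?_ ?_) (by positivity)
  · rw [div_le_one (by positivity)]
    linarith
  · exact div_le_div_of_nonneg_left hr.le hn (by linarith)

theorem sum_norm_p_le {L : ℕ} {P : ℝ[X]} (h : Nice L P) {b r : ℝ} (hb : 0 < b) (hr : 0 < r)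
    (hd : ∀ ρ ∈ Z P, b * (r + ‖ρ‖) ≤ ‖(r : ℂ) - ρ‖) :
    ((Z P).map fun ρ => ‖p r ρ‖).sum ≤ b⁻¹ * M P r := by
  unfold M
  rw [← Multiset.sum_map_mul_left]
  exact Multiset.sum_map_le_sum_map _ _ fun ρ hρ => norm_p_le hb hr (Z_ne_zero h hρ) (hd ρ hρ)

/-- the mean is at most `M / b` -/
theorem mean_le_M {L : ℕ} {P : ℝ[X]} (h : Nice L P) {b r : ℝ} (hb : 0 < b) (hr : 0 < r)
    (hd : ∀ ρ ∈ Z P, b * (r + ‖ρ‖) ≤ ‖(r : ℂ) - ρ‖)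
    (hm : ((Z P).map fun ρ => p r ρ).sum = (mean P r : ℂ)) : mean P r ≤ b⁻¹ * M P r := by
  refine le_trans ?_ (sum_norm_p_le h hb hr hd)
  have h1 : mean P r ≤ ‖(mean P r : ℂ)‖ := by
    rw [Complex.norm_real]
    exact le_abs_self _
  rw [← hm] at h1
  refine h1.trans ?_
  have := norm_multiset_sum_le ((Z P).map fun ρ => p r ρ)
  rwa [Multiset.map_map] at this

/-- E20a from E05, E06, E07 -/
theorem mean_le_of {C₁ R ψ c ε : ℝ}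
    (hM : ∃ K : ℝ, 1 ≤ K ∧ ∀ L : ℕ, 2 ≤ L → ∀ P : ℝ[X], Good C₁ R ψ c ε L P →
      ∀ r : ℝ, 1 / (L : ℝ) ^ 2 ≤ r → r ≤ R → M P r ≤ K * (L * √r + Real.log L))
    (hd : ∃ b : ℝ, 0 < b ∧ b ≤ 1 ∧ ∀ L : ℕ, ∀ P : ℝ[X], Good C₁ R ψ c ε L P → ∀ ρ ∈ Z P,
      ∀ r : ℝ, 0 < r → r ≤ R / 2 → b * (r + ‖ρ‖) ≤ ‖(r : ℂ) - ρ‖)
    (hm : ∀ {L : ℕ} {P : ℝ[X]}, Nice L P → ∀ {r : ℝ}, 0 < r →
      ((Z P).map fun ρ => p r ρ).sum = (mean P r : ℂ)) :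
    ∃ K : ℝ, 0 < K ∧ ∀ L : ℕ, 2 ≤ L → ∀ P : ℝ[X], Good C₁ R ψ c ε L P →
      ∀ r : ℝ, 1 / (L : ℝ) ^ 2 ≤ r → r ≤ R / 2 → mean P r ≤ K * (L * √r + Real.log L) := by
  obtain ⟨K, hK, hM⟩ := hM
  obtain ⟨b, hb, _, hd⟩ := hd
  refine ⟨b⁻¹ * K, by positivity, fun L hL P hP r hr hrR => ?_⟩
  have hL0 : (0 : ℝ) < L := by positivity
  have hr0 : 0 < r := lt_of_lt_of_le (by positivity) hr
  have h1 := mean_le_M hP.toNice hb hr0 (fun ρ hρ => hd L P hP ρ hρ r hr0 hrR) (hm hP.toNice hr0)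
  have h2 := hM L hL P hP r hr (by linarith)
  calc mean P r ≤ b⁻¹ * M P r := h1
    _ ≤ b⁻¹ * (K * (L * √r + Real.log L)) := mul_le_mul_of_nonneg_left h2 (by positivity)
    _ = b⁻¹ * K * (L * √r + Real.log L) := by ring

end EVC
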