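import Pool.Agent.Helper3.EVC.E04

set_option autoImplicit false

namespace EVC

open Polynomial

/-! ## E05: `M r ≤ K (L √r + log L)` -/

private theorem card_Z_le {L : ℕ} {P : ℝ[X]} (h : Nice L P) : 2 * (Z P).card ≤ L := by
  have h1 : (Z P).card ≤ P.natDegree := by
    unfold Z
    exact (card_roots' _).trans natDegree_map_le
  have := h.deg
  omega

private theorem M_le_card (P : ℝ[X]) (r : ℝ) : M P r ≤ (Z P).card := by
  unfold M
  have h1 := Multiset.sum_le_card_nsmul ((Z P).map fun ρ => min 1 (r / ‖ρ‖)) 1 (by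
    intro x hx
    obtain ⟨ρ, _, rfl⟩ := Multiset.mem_map.1 hx
    exact min_le_left _ _)
  rw [Multiset.card_map, nsmul_eq_mul, mul_one] at h1
  exact h1

open Classical in
private theorem M_step (P : ℝ[X]) {r : ℝ} (hr : 0 < r) :
    M P r ≤ cnt P (4 * r) + 1 / 4 * M P (4 * r) := by
  have key : ∀ S : Multiset ℂ, (S.map fun ρ => min 1 (r / ‖ρ‖)).sum ≤
      ((S.filter (fun ρ => ‖ρ‖ ≤ 4 * r)).card : ℝ) +
        1 / 4 * (S.map fun ρ => min 1 (4 * r / ‖ρ‖)).sum := by
    intro S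
    induction S using Multiset.induction with
    | empty => simp
    | cons ρ S ih =>
      rw [Multiset.map_cons, Multiset.sum_cons, Multiset.map_cons, Multiset.sum_cons]
      have hnn : 0 ≤ 4 * r / ‖ρ‖ := by positivity
      by_cases hρ : ‖ρ‖ ≤ 4 * r
      · rw [Multiset.filter_cons_of_pos (p := fun ρ : ℂ => ‖ρ‖ ≤ 4 * r) S hρ, Multiset.card_cons]
        push_cast
        have h1 : min 1 (r / ‖ρ‖) ≤ 1 := min_le_left _ _
        have h2 : 0 ≤ min 1 (4 * r / ‖ρ‖) := le_min zero_le_one hnn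
        linarith
      · rw [Multiset.filter_cons_of_neg (p := fun ρ : ℂ => ‖ρ‖ ≤ 4 * r) S hρ]
        push Not at hρ
        have hρ0 : 0 < ‖ρ‖ := lt_trans (by positivity) hρ
        have h1 : min 1 (4 * r / ‖ρ‖) = 4 * r / ‖ρ‖ := by
          apply min_eq_right
          rw [div_le_one hρ0]
          exact hρ.le
        have h2 : min 1 (r / ‖ρ‖) ≤ r / ‖ρ‖ := min_le_right _ _
        have h3 : 1 / 4 * (4 * r / ‖ρ‖) = r / ‖ρ‖ := by ring
        rw [h1]
        linarith
  exact key (Z P)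

private theorem eval_nonneg {L : ℕ} {P : ℝ[X]} (h : Nice L P) {r : ℝ} (hr : 0 ≤ r) :
    0 ≤ P.eval r := by
  rw [eval_eq_sum_range]
  exact Finset.sum_nonneg fun k _ => mul_nonneg (h.nn k) (pow_nonneg hr k)

private theorem cnt_le {C₁ R ψ c ε : ℝ} (h : Adm C₁ R ψ c ε) {L : ℕ} (hL : 2 ≤ L) {P : ℝ[X]}
    (hP : Good C₁ R ψ c ε L P) {s : ℝ} (hs : 0 < s) (h1 : 1 / (L : ℝ) ^ 2 ≤ 2 * s)
    (h2 : 2 * s ≤ R) : (cnt P s : ℝ) ≤ 2 * (L * √s + C₁ * Real.log L) := by
  have hL' : (2 : ℝ) ≤ L := by exact_mod_cast hL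
  have hlog : 0 < Real.log L := Real.log_pos (by linarith)
  have hj := jensen hP.toNice hs
  have hi := hP.hi (2 * s) 0 h1 h2 (by rw [abs_zero]; exact h.hψ.le)
  have e1 : aeval (pt (2 * s) 0) P = ((P.eval (2 * s) : ℝ) : ℂ) := by
    unfold pt
    rw [Complex.ofReal_zero, zero_mul, Complex.exp_zero, mul_one]
    exact aeval_algebraMap_apply_eq_algebraMap_eval (2 * s) P
  rw [e1, Complex.norm_real, Real.norm_of_nonneg (eval_nonneg hP.toNice (by positivity))] at hi
  have hle := hj.trans hi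
  have hlg := Real.log_le_log (by positivity) hle
  rw [Real.log_exp, Real.log_pow] at hlg
  have hA : A (2 * s) ≤ √(2 * s) / 2 := by
    unfold A
    have h3 : 0 ≤ Real.arsinh (√(2 * s) / 2) := Real.arsinh_nonneg_iff.2 (by positivity)
    have h4 := Real.self_le_sinh_iff.2 h3
    rwa [Real.sinh_arsinh] at h4
  have hsq : √(2 * s) / 2 ≤ √s := by
    have h3 : √(2 * s) ≤ √(4 * s) := Real.sqrt_le_sqrt (by linarith)
    have h4 : √(4 * s) = 2 * √s := by
      rw [Real.sqrt_mul (by norm_num)]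
      congr 1
      rw [show (4 : ℝ) = 2 ^ 2 by norm_num]
      exact Real.sqrt_sq (by norm_num)
    linarith
  have hL0 : (0 : ℝ) ≤ L := by linarith
  have h5 : (L : ℝ) * A (2 * s) ≤ L * √s := mul_le_mul_of_nonneg_left (hA.trans hsq) hL0
  have h6 : (cnt P s : ℝ) * Real.log 2 ≤ L * √s + C₁ * Real.log L := by
    have h7 : c * L * √(2 * s) * (0 : ℝ) ^ 2 = 0 := by ring
    linarith
  have hl2 : (1 : ℝ) / 2 ≤ Real.log 2 := by
    have := Real.log_two_gt_d9
    linarith
  have h8 : (cnt P s : ℝ) * (1 / 2) ≤ (cnt P s : ℝ) * Real.log 2 :=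
    mul_le_mul_of_nonneg_left hl2 (Nat.cast_nonneg _)
  linarith

theorem M_le {C₁ R ψ c ε : ℝ} (h : Adm C₁ R ψ c ε) : ∃ K : ℝ, 1 ≤ K ∧ ∀ L : ℕ, 2 ≤ L →
    ∀ P : ℝ[X], Good C₁ R ψ c ε L P → ∀ r : ℝ, 1 / (L : ℝ) ^ 2 ≤ r → r ≤ R →
      M P r ≤ K * (L * √r + Real.log L) := by
  have hC := h.hC
  have hR := h.hR
  refine ⟨8 + 3 * C₁, by linarith, ?_⟩
  intro L hL P hP
  have hL' : (2 : ℝ) ≤ L := by exact_mod_cast hL
  have hL0 : (0 : ℝ) < L := by linarith
  have hlog : 0 < Real.log L := Real.log_pos (by linarith)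
  have hLi : 0 < 1 / (L : ℝ) ^ 2 := by positivity
  have key : ∀ n : ℕ, ∀ r : ℝ, 1 / (L : ℝ) ^ 2 ≤ r → r ≤ R → R / 8 ≤ 4 ^ n * r →
      M P r ≤ (8 + 3 * C₁) * (L * √r + Real.log L) := by
    have base : ∀ r : ℝ, R / 8 ≤ r → M P r ≤ (8 + 3 * C₁) * (L * √r + Real.log L) := by
      intro r hr
      have h1 := M_le_card P r
      have h2 : 2 * ((Z P).card : ℝ) ≤ L := by exact_mod_cast card_Z_le hP.toNice
      have h3 : (1 : ℝ) / 4 ≤ √r := by
        apply Real.le_sqrt_of_sq_le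
        linarith
      have h4 : (L : ℝ) * (1 / 4) ≤ L * √r := mul_le_mul_of_nonneg_left h3 hL0.le
      have h5 : 0 ≤ C₁ * (L * √r + Real.log L) := by positivity
      linarith
    intro n
    induction n with
    | zero =>
      intro r _ _ h3
      rw [pow_zero, one_mul] at h3
      exact base r h3
    | succ n ih =>
      intro r h1 h2 h3
      by_cases h4 : R / 8 ≤ r
      · exact base r h4
      · push Not at h4
        have hr : 0 < r := hLi.trans_le h1
        have h5 := ih (4 * r) (by linarith) (by linarith) (by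
          rw [pow_succ] at h3
          linarith)
        have h6 := M_step P hr
        have h7 := cnt_le h hL hP (s := 4 * r) (by positivity) (by linarith) (by linarith)
        have h8 : √(4 * r) = 2 * √r := by
          rw [Real.sqrt_mul (by norm_num)]
          congr 1
          rw [show (4 : ℝ) = 2 ^ 2 by norm_num]
          exact Real.sqrt_sq (by norm_num)
        rw [h8] at h5 h7
        have h9 : 0 ≤ (L : ℝ) * √r := by positivity
        have h10 : 0 ≤ C₁ * (L * √r) := by positivity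
        have h11 : 0 ≤ C₁ * Real.log L := by positivity
        linarith
  intro r h1 h2
  obtain ⟨n, hn⟩ := pow_unbounded_of_one_lt (R / 8 / r) (show (1 : ℝ) < 4 by norm_num)
  refine key n r h1 h2 ?_
  have hr : 0 < r := hLi.trans_le h1
  exact ((div_lt_iff₀ hr).1 hn).le

end EVC
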