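import Mathlib

/-!
# EV, analytic half (CORE): definitions

Log-concavity of all coefficients of `P` for large `L`, from the bounds of `|P|` in a narrow sector.
No braids here.  `P : ℝ[X]` has coefficients `≥ 0`, `P(0) ≥ 1`, `2 * natDegree ≤ L`.
`t = 4 sinh(x + i y)^2`, `A r = arsinh (√r / 2)`, so `4 sinh (A r)^2 = r`.
-/

set_option autoImplicit false

namespace EVC

open Polynomial

/-- the point `r e^{iθ}` (same form as in `FU.four`) -/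
noncomputable def pt (r θ : ℝ) : ℂ := (r : ℂ) * Complex.exp (θ * Complex.I)

/-- the point `4 sinh(x + i y)^2` -/
noncomputable def T (x y : ℝ) : ℂ := 4 * (Complex.sinh ((x : ℂ) + y * Complex.I)) ^ 2

/-- complex roots with multiplicity -/
noncomputable def Z (P : ℝ[X]) : Multiset ℂ := (P.map (algebraMap ℝ ℂ)).roots

/-- `A r = arsinh (√r / 2)` -/
noncomputable def A (r : ℝ) : ℝ := Real.arsinh (√r / 2)

open Classical in
/-- number of roots in the closed disc of radius `r` -/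
noncomputable def cnt (P : ℝ[X]) (r : ℝ) : ℕ := ((Z P).filter (fun ρ => ‖ρ‖ ≤ r)).card

/-- `M r = Σ min 1 (r / |ρ|)` -/
noncomputable def M (P : ℝ[X]) (r : ℝ) : ℝ := ((Z P).map fun ρ => min 1 (r / ‖ρ‖)).sum

/-- `p = r / (r - ρ)` -/
noncomputable def p (r : ℝ) (ρ : ℂ) : ℂ := (r : ℂ) / (r - ρ)

/-- variance `Σ p (1 - p)` (the sum is real, lemma `V_im`) -/
noncomputable def V (P : ℝ[X]) (r : ℝ) : ℝ := ((Z P).map fun ρ => p r ρ * (1 - p r ρ)).sum.re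

/-- `Σ |p (1 - p)|` -/
noncomputable def W (P : ℝ[X]) (r : ℝ) : ℝ := ((Z P).map fun ρ => ‖p r ρ * (1 - p r ρ)‖).sum

/-- mean `r P'(r) / P(r)` -/
noncomputable def mean (P : ℝ[X]) (r : ℝ) : ℝ := r * P.derivative.eval r / P.eval r

/-- The hypothesis delivered by Lemma C: bounds of `|P|` at `4 sinh(x + i y)^2`, `0 < x ≤ Φ`, `|y| ≤ θ₀`. -/
def H1 (a : ℕ) (c C Φ θ₀ : ℝ) (L : ℕ) (P : ℝ[X]) : Prop :=
  ∀ x y : ℝ, 0 < x → x ≤ Φ → |y| ≤ θ₀ →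
    c * x ^ a * Real.exp (L * x) ≤ ‖aeval (T x y) P‖ ∧
    ‖aeval (T x y) P‖ ≤ C * (x ^ a)⁻¹ * Real.exp (L * x)

/-- The hypothesis delivered by the Markov windows. -/
def H3 (c C r₀ R : ℝ) (L : ℕ) (P : ℝ[X]) : Prop :=
  ∀ r θ : ℝ, r₀ ≤ r → r ≤ R → |θ| ≤ Real.pi →
    ‖aeval (pt r θ) P‖ ≤ C * Real.exp (-(c * L * θ ^ 2)) * P.eval r

/-- The polynomial has nonnegative coefficients, `P(0) ≥ 1` and degree at most `L / 2`. -/
structure Nice (L : ℕ) (P : ℝ[X]) : Prop where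
  nn : ∀ k, 0 ≤ P.coeff k
  one : 1 ≤ P.coeff 0
  deg : 2 * P.natDegree ≤ L

/-- Bounds for one polynomial with explicit constants (leaf `good_of_H1`). -/
structure Good (C₁ R ψ c ε : ℝ) (L : ℕ) (P : ℝ[X]) : Prop extends Nice L P where
  lo : ∀ r : ℝ, 1 / (L : ℝ) ^ 2 ≤ r → r ≤ R →
    Real.exp (L * A r - C₁ * Real.log L) ≤ P.eval r
  hi : ∀ r θ : ℝ, 1 / (L : ℝ) ^ 2 ≤ r → r ≤ R → |θ| ≤ ψ →
    ‖aeval (pt r θ) P‖ ≤ Real.exp (L * A r - c * L * √r * θ ^ 2 + C₁ * Real.log L)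
  sec : ∀ ρ ∈ Z P, ‖ρ‖ ≤ R → ψ ≤ |ρ.arg|
  neg : ∀ ρ ∈ Z P, ‖ρ‖ < ε → ρ.im = 0 ∧ ρ.re < 0

/-- the constants of `Good` are admissible -/
structure Adm (C₁ R ψ c ε : ℝ) : Prop where
  hC : 0 < C₁
  hR : 1 ≤ R
  hψ : 0 < ψ
  hψ1 : ψ ≤ 1
  hc : 0 < c
  hc1 : c ≤ 1
  hε : 0 < ε
  hε1 : ε ≤ 1

end EVC
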