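import Pool.Agent.Helper3.EVC.Defs
import Pool.Agent.Helper92.EV.SaddlePoint

/-! # E14: saddle point (helper92)

`saddle` carries the extra hypothesis `4 * C3 * d ≤ 1` (without it nothing controls the arc
`1 / (4 C3) ≤ |x| ≤ d`); `saddle'` has a global Gaussian tail and no such hypothesis. -/

set_option autoImplicit false

namespace EVC

open Polynomial

theorem saddle (d C3 C2 c2 : ℝ) (hd : 0 < d) (h3 : 0 < C3) (h2 : 0 < C2) (hc2 : 0 < c2)
    (h3d : 4 * C3 * d ≤ 1) :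
    ∃ V0 : ℝ, ∀ P : ℝ[X], (∀ j, 0 ≤ P.coeff j) → ∀ k : ℕ, 1 ≤ k → ∀ r v : ℝ, 0 < r → V0 ≤ v →
      0 < P.eval r →
      (∀ x : ℝ, |x| ≤ d → ∃ l : ℂ, ‖l‖ ≤ C3 * v * |x| ^ 3 ∧ aeval (pt r x) P =
        ((P.eval r : ℝ) : ℂ) * Complex.exp (k * x * Complex.I - v * x ^ 2 / 2 + l)) →
      (∀ x : ℝ, d ≤ |x| → |x| ≤ Real.pi →
        ‖aeval (pt r x) P‖ ≤ C2 * Real.exp (-(c2 * v)) * P.eval r) →
      P.coeff (k - 1) * P.coeff (k + 1) < P.coeff k ^ 2 := by
  set e : ℝ := min d 1 with he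
  have he0 : 0 < e := lt_min hd one_pos
  have hed : e ≤ d := min_le_left _ _
  have he1 : e ≤ 1 := min_le_right _ _
  have hC3e : C3 * e ≤ 1 / 4 := by
    have : C3 * e ≤ C3 * d := by gcongr
    linarith
  set K : ℝ := max C2 1 with hK
  set c : ℝ := min c2 (1 / 4) with hc
  have hK0 : 0 < K := lt_of_lt_of_le h2 (le_max_left _ _)
  have hc0 : 0 < c := lt_min hc2 (by norm_num)
  set v₀ : ℝ := 960 * C3 + 480 * K / c ^ 2 + 1 / e with hv₀
  have hv₀0 : 0 < v₀ := by positivity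
  refine ⟨(v₀ + 1) ^ 2, ?_⟩
  intro P hp k hk r v hr hV hP hloc htail
  have hV0 : 0 < v := lt_of_lt_of_le (by positivity) hV
  have hsq : (√v) ^ 2 = v := Real.sq_sqrt hV0.le
  have hv : v₀ + 1 ≤ √v := Real.le_sqrt_of_sq_le hV
  refine Helper92.EV.saddle_core P hp k hk r (√v) e C3 K c hr hP he0 he1 h3.le hC3e hK0.le hc0
    ?_ (by linarith) ?_ ?_
  · have h1 : 0 < 480 * K / c ^ 2 := by positivity
    have h2 : 0 < 1 / e := by positivity
    constructor
    · linarith
    · linarith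
  · intro x hx
    rw [hsq]
    obtain ⟨l, hl1, hl2⟩ := hloc x (by rw [abs_of_nonneg hx.1]; exact le_trans hx.2 hed)
    refine ⟨l, ?_, ?_⟩
    · rwa [abs_of_nonneg hx.1] at hl1
    · unfold pt at hl2
      rw [hl2]
      push_cast
      rfl
  · intro x hx
    rw [hsq]
    have hx0 : 0 ≤ x := le_trans he0.le hx.1
    rcases le_or_gt d x with h | h
    · have h1 := htail x (by rw [abs_of_nonneg hx0]; exact h) (by rw [abs_of_nonneg hx0]; exact hx.2)
      unfold pt at h1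
      refine le_trans h1 ?_
      have h4 : C2 ≤ K := le_max_left _ _
      have h5 : c ≤ c2 := min_le_left _ _
      have h6 : Real.exp (-(c2 * v)) ≤ Real.exp (-(c * v)) := by
        apply Real.exp_le_exp.2
        apply neg_le_neg
        gcongr
      gcongr
    · have hd1 : 1 ≤ x := by
        have h7 : e ≤ x := hx.1
        rcases le_total d 1 with h8 | h8
        · rw [he, min_eq_left h8] at h7
          exact absurd h (not_lt.2 h7)
        · rwa [he, min_eq_right h8] at h7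
      obtain ⟨l, hl1, hl2⟩ := hloc x (by rw [abs_of_nonneg hx0]; exact h.le)
      rw [abs_of_nonneg hx0] at hl1
      unfold pt at hl2
      rw [hl2, norm_mul, Complex.norm_real, Real.norm_of_nonneg hP.le, mul_comm, Complex.norm_exp]
      apply mul_le_mul_of_nonneg_right _ hP.le
      have h9 : ((k:ℂ) * (x:ℂ) * Complex.I - (v:ℂ) * (x:ℂ) ^ 2 / 2 + l).re =
          -(v * x ^ 2 / 2) + l.re := by
        have : (v:ℂ) * (x:ℂ) ^ 2 / 2 = ((v * x ^ 2 / 2 : ℝ):ℂ) := by push_cast; ring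
        rw [Complex.add_re, Complex.sub_re, this, Complex.ofReal_re]
        have h10 : ((k:ℂ) * (x:ℂ) * Complex.I).re = 0 := by
          have : (k:ℂ) * (x:ℂ) * Complex.I = ((k * x : ℝ):ℂ) * Complex.I := by push_cast; ring
          rw [this, Complex.re_ofReal_mul, Complex.I_re, mul_zero]
        rw [h10]; ring
      rw [h9]
      have h11 : l.re ≤ v * x ^ 2 / 4 := by
        calc l.re ≤ ‖l‖ := Complex.re_le_norm l
          _ ≤ C3 * v * x ^ 3 := hl1
          _ = (v * x ^ 2) * (C3 * x) := by ring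
          _ ≤ (v * x ^ 2) * (1 / 4) := by
            have : C3 * x ≤ 1 / 4 := by
              have : C3 * x ≤ C3 * d := by gcongr
              linarith
            gcongr
          _ = v * x ^ 2 / 4 := by ring
      have h12 : c ≤ 1 / 4 := min_le_right _ _
      have h13 : -(v * x ^ 2 / 2) + l.re ≤ -(c * v) := by
        have h14 : v * 1 ≤ v * x ^ 2 := by
          have : (1:ℝ) ≤ x ^ 2 := by nlinarith
          gcongr
        have h15 : c * v ≤ 1 / 4 * v := by gcongr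
        linarith
      calc Real.exp (-(v * x ^ 2 / 2) + l.re) ≤ Real.exp (-(c * v)) := Real.exp_le_exp.2 h13
        _ = 1 * Real.exp (-(c * v)) := by ring
        _ ≤ K * Real.exp (-(c * v)) := by
          have : 1 ≤ K := le_max_right _ _
          gcongr

/-- global Gaussian tail: no relation between `d` and `C3` is needed -/
theorem saddle' (d C3 C2 c2 : ℝ) (hd : 0 < d) (h3 : 0 < C3) (h2 : 0 < C2) (hc2 : 0 < c2) :
    ∃ V0 : ℝ, ∀ P : ℝ[X], (∀ j, 0 ≤ P.coeff j) → ∀ k : ℕ, 1 ≤ k → ∀ r v : ℝ, 0 < r → V0 ≤ v →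
      0 < P.eval r →
      (∀ x : ℝ, |x| ≤ d → ∃ l : ℂ, ‖l‖ ≤ C3 * v * |x| ^ 3 ∧ aeval (pt r x) P =
        ((P.eval r : ℝ) : ℂ) * Complex.exp (k * x * Complex.I - v * x ^ 2 / 2 + l)) →
      (∀ x : ℝ, |x| ≤ Real.pi →
        ‖aeval (pt r x) P‖ ≤ C2 * Real.exp (-(c2 * v * x ^ 2)) * P.eval r) →
      P.coeff (k - 1) * P.coeff (k + 1) < P.coeff k ^ 2 := by
  obtain ⟨V₀, hV₀, h⟩ := Helper92.EV.saddle d C3 C2 (2 * c2) hd h3 h2 (by positivity)
  refine ⟨V₀, ?_⟩
  intro P hp k hk r v hr hV hP hloc htail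
  have hV0 : 0 < v := lt_of_lt_of_le hV₀ hV
  refine h P hp k hk r v hr hP hV ?_ ?_
  · intro x hx0 hxd
    obtain ⟨l, hl1, hl2⟩ := hloc x (by rw [abs_of_nonneg hx0]; exact hxd)
    refine ⟨l, ?_, ?_⟩
    · rwa [abs_of_nonneg hx0] at hl1
    · unfold pt at hl2
      rw [hl2]
      push_cast
      rfl
  · intro x hx0 hxπ
    have h1 := htail x (by rw [abs_of_nonneg hx0]; exact hxπ)
    unfold pt at h1
    refine le_trans h1 ?_
    have h4 := Helper92.EV.one_sub_cos_upper x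
    have h5 : Real.exp (-(c2 * v * x ^ 2)) ≤ Real.exp (-(2 * c2 * v * (1 - Real.cos x))) := by
      apply Real.exp_le_exp.2
      apply neg_le_neg
      calc 2 * c2 * v * (1 - Real.cos x) ≤ 2 * c2 * v * (x ^ 2 / 2) := by gcongr
        _ = c2 * v * x ^ 2 := by ring
    gcongr

end EVC
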