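import Pool.Agent.Helper3.EVC.Defs
import Pool.Agent.Helper3.EVC.E14

set_option autoImplicit false

namespace EVC

open Polynomial

theorem V_le_W (P : ℝ[X]) (r : ℝ) : V P r ≤ W P r := by
  unfold V W
  refine le_trans (Complex.re_le_norm _) ?_
  have := Multiset.le_sum_of_subadditive (f := fun z : ℂ => ‖z‖) (by simp) norm_add_le
    ((Z P).map fun ρ => p r ρ * (1 - p r ρ))
  rw [Multiset.map_map] at this
  exact this

/-- `bulk` from the four leaves E06 `dist_ge`, E10 `local_form`, E11 `VW`, E13 `tail_small`: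
`theorem bulk h := bulk_of h (dist_ge h) (fun _ hB => local_form hB) (VW h) (tail_small h)` -/
theorem bulk_of {C₁ R ψ c ε : ℝ} (h : Adm C₁ R ψ c ε)
    (dist_ge : ∃ b : ℝ, 0 < b ∧ b ≤ 1 ∧ ∀ L : ℕ,
      ∀ P : ℝ[X], Good C₁ R ψ c ε L P → ∀ ρ ∈ Z P, ∀ r : ℝ, 0 < r → r ≤ R / 2 →
        b * (r + ‖ρ‖) ≤ ‖(r : ℂ) - ρ‖)
    (local_form : ∀ B : ℝ, 1 ≤ B → ∃ θ₂ : ℝ, 0 < θ₂ ∧ ∃ K : ℝ, 0 < K ∧ ∀ (L : ℕ) (P : ℝ[X]),
      Nice L P → ∀ r : ℝ, 0 < r → (∀ ρ ∈ Z P, ‖p r ρ‖ ≤ B) → ∀ θ : ℝ, |θ| ≤ θ₂ → ∃ w : ℂ,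
        ‖w‖ ≤ K * W P r * |θ| ^ 3 ∧
        aeval (pt r θ) P = ((P.eval r : ℝ) : ℂ) *
          Complex.exp (θ * mean P r * Complex.I - (θ : ℂ) ^ 2 / 2 * V P r + w))
    (VW : ∃ c₈ K C₈ : ℝ, 0 < c₈ ∧ 0 < K ∧ 2 ≤ C₈ ∧
      ∀ L : ℕ, 2 ≤ L → ∀ P : ℝ[X], Good C₁ R ψ c ε L P → ∀ r : ℝ, 0 < r →
        C₈ * Real.log L ≤ L * √r → r ≤ R / 2 →
          c₈ * (L * √r) ≤ V P r ∧ W P r ≤ K * (L * √r))
    (tail_small : ∃ r₁ c₉ C₉ : ℝ, 0 < r₁ ∧ r₁ ≤ R / 2 ∧ 0 < c₉ ∧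
      2 ≤ C₉ ∧ ∀ L : ℕ, 2 ≤ L → ∀ P : ℝ[X], Good C₁ R ψ c ε L P → ∀ r : ℝ, 0 < r →
        C₉ * Real.log L ≤ L * √r → r ≤ r₁ → ∀ θ : ℝ, |θ| ≤ Real.pi →
          ‖aeval (pt r θ) P‖ ≤ Real.exp (-(c₉ * (L * √r) * θ ^ 2)) * P.eval r) :
    ∃ r₁ : ℝ, 0 < r₁ ∧ ∀ c₃ C₃ : ℝ, 0 < c₃ →
    ∃ C₈ : ℝ, 2 ≤ C₈ ∧ ∃ L₀ : ℕ, ∀ L : ℕ, L₀ ≤ L → ∀ P : ℝ[X], Good C₁ R ψ c ε L P →
      H3 c₃ C₃ r₁ R L P → ∀ r : ℝ, 0 < r → C₈ * Real.log L ≤ L * √r → r ≤ R / 2 →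
        ∀ k : ℕ, 1 ≤ k → mean P r = k → P.coeff (k - 1) * P.coeff (k + 1) < P.coeff k ^ 2 := by
  obtain ⟨b, hb0, hb1, hdist⟩ := dist_ge
  obtain ⟨θ₂, hθ₂, K₁₀, hK₁₀, hlocal⟩ := local_form (1 / b) (by
    rw [le_div_iff₀ hb0]; linarith)
  obtain ⟨c₈, K, D₈, hc₈, hK, hD₈, hVW⟩ := VW
  obtain ⟨r₁, c₉, C₉, hr₁, hr₁R, hc₉, hC₉, htail⟩ := tail_small
  have hR : 0 < R := lt_of_lt_of_le one_pos h.hR
  have hsR : 0 < √R := Real.sqrt_pos.2 hR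
  refine ⟨r₁, hr₁, ?_⟩
  intro c₃ C₃ hc₃
  set c₂ : ℝ := min (c₉ / K) (c₃ / (K * √R)) with hc₂
  have hc₂0 : 0 < c₂ := lt_min (by positivity) (by positivity)
  set C₂ : ℝ := max 1 C₃ with hC₂
  have hC₂1 : 1 ≤ C₂ := le_max_left _ _
  obtain ⟨V₀, hsad⟩ := saddle' θ₂ (K₁₀ * K / c₈) C₂ c₂ hθ₂ (by positivity) (by linarith) hc₂0
  refine ⟨max D₈ C₉, le_trans hD₈ (le_max_left _ _), ⌈Real.exp (max V₀ 1 / (c₈ * D₈))⌉₊ + 2, ?_⟩
  intro L hL P hP hH3 r hr hlog hrR k hk hmean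
  have hL2 : 2 ≤ L := by omega
  have hL0 : (0:ℝ) < L := by
    have : 0 < L := by omega
    exact_mod_cast this
  have hlogL : max V₀ 1 / (c₈ * D₈) ≤ Real.log L := by
    rw [Real.le_log_iff_exp_le hL0]
    have h1 : Real.exp (max V₀ 1 / (c₈ * D₈)) ≤ (⌈Real.exp (max V₀ 1 / (c₈ * D₈))⌉₊ : ℝ) :=
      Nat.le_ceil _
    have h2 : ((⌈Real.exp (max V₀ 1 / (c₈ * D₈))⌉₊ + 2 : ℕ) : ℝ) ≤ (L:ℝ) := by exact_mod_cast hL
    push_cast at h2
    linarith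
  have hlog0 : 0 ≤ Real.log L := Real.log_natCast_nonneg L
  have hl1 : D₈ * Real.log L ≤ L * √r := by
    refine le_trans ?_ hlog
    have := le_max_left D₈ C₉
    gcongr
  have hl2 : C₉ * Real.log L ≤ L * √r := by
    refine le_trans ?_ hlog
    have := le_max_right D₈ C₉
    gcongr
  obtain ⟨hV1, hW1⟩ := hVW L hL2 P hP r hr hl1 hrR
  have hD₈0 : 0 < D₈ := by linarith
  have hPr : 0 < P.eval r := by
    rw [Polynomial.eval_eq_sum_range]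
    have h1 : P.coeff 0 * r ^ 0 ≤ ∑ i ∈ Finset.range (P.natDegree + 1), P.coeff i * r ^ i :=
      Finset.single_le_sum (f := fun i => P.coeff i * r ^ i)
        (fun i _ => mul_nonneg (hP.nn i) (pow_nonneg hr.le i)) (Finset.mem_range.2 (by omega))
    have := hP.one
    simp at h1
    linarith
  have hVlow : V₀ ≤ V P r := by
    have h1 : max V₀ 1 ≤ Real.log L * (c₈ * D₈) := by
      rwa [div_le_iff₀ (by positivity)] at hlogL
    have h2 : c₈ * (D₈ * Real.log L) ≤ c₈ * (L * √r) := by gcongr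
    have h3 := le_max_left V₀ 1
    linarith
  have hLr : 0 ≤ L * √r := by positivity
  have hVup : V P r ≤ K * (L * √r) := le_trans (V_le_W P r) hW1
  have hVnn : 0 ≤ V P r := le_trans (by positivity) hV1
  refine hsad P hP.nn k hk r (V P r) hr hVlow hPr ?_ ?_
  · intro x hx
    have hB : ∀ ρ ∈ Z P, ‖p r ρ‖ ≤ 1 / b := by
      intro ρ hρ
      have h1 := hdist L P hP ρ hρ r hr hrR
      have h2 : b * r ≤ ‖(r:ℂ) - ρ‖ := by
        refine le_trans ?_ h1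
        have := norm_nonneg ρ
        nlinarith
      have h3 : 0 < ‖(r:ℂ) - ρ‖ := lt_of_lt_of_le (by positivity) h2
      unfold p
      rw [norm_div, Complex.norm_real, Real.norm_of_nonneg hr.le, div_le_div_iff₀ h3 hb0]
      linarith
    obtain ⟨w, hw1, hw2⟩ := hlocal L P hP.toNice r hr hB x hx
    refine ⟨w, ?_, ?_⟩
    · refine le_trans hw1 ?_
      have h1 : K₁₀ * W P r ≤ K₁₀ * K / c₈ * V P r := by
        calc K₁₀ * W P r ≤ K₁₀ * (K * (L * √r)) := by gcongr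
          _ = K₁₀ * K / c₈ * (c₈ * (L * √r)) := by field_simp
          _ ≤ K₁₀ * K / c₈ * V P r := by gcongr
      gcongr
    · rw [hw2, hmean]
      congr 2
      push_cast
      ring
  · intro x hx
    have hx2 : 0 ≤ x ^ 2 := sq_nonneg x
    rcases le_total r r₁ with h1 | h1
    · refine le_trans (htail L hL2 P hP r hr hl2 h1 x hx) ?_
      have h2 : Real.exp (-(c₉ * (L * √r) * x ^ 2)) ≤ Real.exp (-(c₂ * V P r * x ^ 2)) := by
        apply Real.exp_le_exp.2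
        apply neg_le_neg
        have h3 : c₂ * V P r ≤ c₉ * (L * √r) := by
          calc c₂ * V P r ≤ (c₉ / K) * V P r := by
                have := min_le_left (c₉ / K) (c₃ / (K * √R))
                gcongr
            _ ≤ (c₉ / K) * (K * (L * √r)) := by gcongr
            _ = c₉ * (L * √r) := by field_simp
        gcongr
      calc Real.exp (-(c₉ * (L * √r) * x ^ 2)) * P.eval r ≤
            Real.exp (-(c₂ * V P r * x ^ 2)) * P.eval r := by gcongr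
        _ = 1 * Real.exp (-(c₂ * V P r * x ^ 2)) * P.eval r := by ring
        _ ≤ C₂ * Real.exp (-(c₂ * V P r * x ^ 2)) * P.eval r := by gcongr
    · have hrR' : r ≤ R := by linarith
      refine le_trans (hH3 r x h1 hrR' hx) ?_
      have h2 : Real.exp (-(c₃ * L * x ^ 2)) ≤ Real.exp (-(c₂ * V P r * x ^ 2)) := by
        apply Real.exp_le_exp.2
        apply neg_le_neg
        have h3 : c₂ * V P r ≤ c₃ * L := by
          calc c₂ * V P r ≤ (c₃ / (K * √R)) * V P r := by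
                have := min_le_right (c₉ / K) (c₃ / (K * √R))
                gcongr
            _ ≤ (c₃ / (K * √R)) * (K * (L * √r)) := by gcongr
            _ ≤ (c₃ / (K * √R)) * (K * (L * √R)) := by gcongr
            _ = c₃ * L := by field_simp
        gcongr
      have h4 : C₃ ≤ C₂ := le_max_right _ _
      gcongr

end EVC
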