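import Pool.Agent.Helper3.EVC.E07
import Pool.Agent.Helper3.EVC.E08

set_option autoImplicit false

namespace EVC

open Polynomial

/-! ## E10 -/

theorem local_form_aux {B : ℝ} (hlog : ∃ θ₂ : ℝ, 0 < θ₂ ∧ ∃ K : ℝ, 0 < K ∧ ∀ q : ℂ, ‖q‖ ≤ B →
    ∀ θ : ℝ, |θ| ≤ θ₂ → ∃ f : ℂ, Complex.exp f = 1 + (Complex.exp (θ * Complex.I) - 1) * q ∧
      ‖f - θ * Complex.I * q + (θ : ℂ) ^ 2 / 2 * (q * (1 - q))‖ ≤ K * ‖q * (1 - q)‖ * |θ| ^ 3) :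
    ∃ θ₂ : ℝ, 0 < θ₂ ∧ ∃ K : ℝ, 0 < K ∧ ∀ (L : ℕ) (P : ℝ[X]),
    Nice L P → ∀ r : ℝ, 0 < r → (∀ ρ ∈ Z P, ‖p r ρ‖ ≤ B) → ∀ θ : ℝ, |θ| ≤ θ₂ → ∃ w : ℂ,
      ‖w‖ ≤ K * W P r * |θ| ^ 3 ∧
      aeval (pt r θ) P = ((P.eval r : ℝ) : ℂ) *
        Complex.exp (θ * mean P r * Complex.I - (θ : ℂ) ^ 2 / 2 * V P r + w) := by
  obtain ⟨θ₂, hθ₂, K, hK, hlog⟩ := hlog
  refine ⟨θ₂, hθ₂, K, hK, fun L P hP r hr hρ θ hθ => ?_⟩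
  have hex : ∀ ρ : ℂ, ∃ f : ℂ, ‖p r ρ‖ ≤ B →
      (Complex.exp f = 1 + (Complex.exp (θ * Complex.I) - 1) * p r ρ ∧
      ‖f - θ * Complex.I * p r ρ + (θ : ℂ) ^ 2 / 2 * (p r ρ * (1 - p r ρ))‖ ≤
        K * ‖p r ρ * (1 - p r ρ)‖ * |θ| ^ 3) := by
    intro ρ
    by_cases h : ‖p r ρ‖ ≤ B
    · obtain ⟨f, hf⟩ := hlog (p r ρ) h θ hθ
      exact ⟨f, fun _ => hf⟩
    · exact ⟨0, fun h' => absurd h' h⟩
  choose f hf using hex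
  refine ⟨((Z P).map fun ρ => f ρ - θ * Complex.I * p r ρ +
    (θ : ℂ) ^ 2 / 2 * (p r ρ * (1 - p r ρ))).sum, ?_, ?_⟩
  · refine (norm_multiset_sum_le _).trans ?_
    rw [Multiset.map_map]
    have h1 : ((Z P).map ((fun x => ‖x‖) ∘ fun ρ => f ρ - θ * Complex.I * p r ρ +
        (θ : ℂ) ^ 2 / 2 * (p r ρ * (1 - p r ρ)))).sum ≤
        ((Z P).map fun ρ => K * |θ| ^ 3 * ‖p r ρ * (1 - p r ρ)‖).sum := by
      refine Multiset.sum_map_le_sum_map _ _ fun ρ hm => ?_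
      have := (hf ρ (hρ ρ hm)).2
      simp only [Function.comp]
      linarith
    refine h1.trans (le_of_eq ?_)
    rw [Multiset.sum_map_mul_left, W]
    ring
  · have h2 : ((Z P).map fun ρ => 1 + (Complex.exp (θ * Complex.I) - 1) * p r ρ).prod =
        Complex.exp ((Z P).map f).sum := by
      rw [Complex.exp_multiset_sum, Multiset.map_map]
      congr 1
      refine Multiset.map_congr rfl fun ρ hm => ?_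
      simp only [Function.comp]
      exact ((hf ρ (hρ ρ hm)).1).symm
    rw [prod_formula hP θ hr, h2]
    congr 2
    have e1 := mean_eq hP hr
    have e2 := V_eq hP hr
    rw [← e1, ← e2, Multiset.sum_map_add, Multiset.sum_map_sub, Multiset.sum_map_mul_left,
      Multiset.sum_map_mul_left]
    ring

theorem local_form {B : ℝ} (hB : 1 ≤ B) : ∃ θ₂ : ℝ, 0 < θ₂ ∧ ∃ K : ℝ, 0 < K ∧ ∀ (L : ℕ) (P : ℝ[X]),
    Nice L P → ∀ r : ℝ, 0 < r → (∀ ρ ∈ Z P, ‖p r ρ‖ ≤ B) → ∀ θ : ℝ, |θ| ≤ θ₂ → ∃ w : ℂ,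
      ‖w‖ ≤ K * W P r * |θ| ^ 3 ∧
      aeval (pt r θ) P = ((P.eval r : ℝ) : ℂ) *
        Complex.exp (θ * mean P r * Complex.I - (θ : ℂ) ^ 2 / 2 * V P r + w) :=
  local_form_aux (log_exp hB)

end EVC
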