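import Pool.Agent.Helper3.EVC.E07

set_option autoImplicit false

namespace EVC

open Polynomial

theorem norm_prod_le_exp (S : Multiset ℂ) (f : ℂ → ℂ) (g : ℂ → ℝ)
    (h : ∀ ρ ∈ S, ‖f ρ‖ ≤ Real.exp (g ρ)) : ‖(S.map f).prod‖ ≤ Real.exp ((S.map g).sum) := by
  induction S using Multiset.induction_on with
  | empty => simp
  | cons a S ih =>
    rw [Multiset.map_cons, Multiset.prod_cons, Multiset.map_cons, Multiset.sum_cons, norm_mul,
      Real.exp_add]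
    exact mul_le_mul (h a (Multiset.mem_cons_self a S))
      (ih fun ρ hρ => h ρ (Multiset.mem_cons_of_mem hρ)) (norm_nonneg _) (Real.exp_pos _).le

theorem re_sum_map (S : Multiset ℂ) (f : ℂ → ℂ) :
    ((S.map f).sum).re = (S.map fun ρ => (f ρ).re).sum := by
  induction S using Multiset.induction_on with
  | empty => simp
  | cons a S ih =>
    rw [Multiset.map_cons, Multiset.sum_cons, Multiset.map_cons, Multiset.sum_cons, Complex.add_re,
      ih]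

theorem card_Z_le {L : ℕ} {P : ℝ[X]} (h : Nice L P) : 2 * ((Z P).card : ℝ) ≤ L := by
  have h1 : (Z P).card ≤ P.natDegree := by
    have := Polynomial.card_roots' (P.map (algebraMap ℝ ℂ))
    rwa [Polynomial.natDegree_map] at this
  have h2 := h.deg
  have h3 : 2 * (Z P).card ≤ L := by omega
  exact_mod_cast h3

theorem q_eq {r : ℝ} {ρ : ℂ} (h : (r : ℂ) - ρ ≠ 0) :
    p r ρ * (1 - p r ρ) = -((r : ℂ) * ρ / ((r : ℂ) - ρ) ^ 2) := by
  unfold p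
  field_simp
  ring

/-- a factor of a negative real root -/
theorem near_factor {r s : ℝ} (hr : 0 < r) (hs0 : 0 ≤ s) (hs2 : s ≤ 2) {ρ : ℂ} (him : ρ.im = 0)
    (hre : ρ.re < 0) :
    ‖1 - 2 * (s : ℂ) * (p r ρ * (1 - p r ρ))‖ ≤
      Real.exp (-(2 * s) * (p r ρ * (1 - p r ρ)).re) := by
  obtain ⟨x, hx0, rfl⟩ : ∃ x : ℝ, 0 < x ∧ ρ = ((-x : ℝ) : ℂ) :=
    ⟨-ρ.re, by linarith, by
      apply Complex.ext
      · simp
      · simp [him]⟩
  have hrx : 0 < r + x := by linarith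
  have h1 : p r ((-x : ℝ) : ℂ) * (1 - p r ((-x : ℝ) : ℂ)) = ((r * x / (r + x) ^ 2 : ℝ) : ℂ) := by
    have h2 : (r : ℂ) - ((-x : ℝ) : ℂ) ≠ 0 := by
      rw [← Complex.ofReal_sub]
      exact Complex.ofReal_ne_zero.2 (by linarith)
    rw [q_eq h2]
    push_cast
    ring
  rw [h1, Complex.ofReal_re]
  set q := r * x / (r + x) ^ 2 with hq
  have hq0 : 0 ≤ q := by positivity
  have hq1 : q ≤ 1 / 4 := by
    rw [hq, div_le_div_iff₀ (by positivity) (by norm_num)]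
    nlinarith [sq_nonneg (r - x)]
  have h3 : (1 - 2 * (s : ℂ) * (q : ℂ)) = ((1 - 2 * s * q : ℝ) : ℂ) := by
    push_cast
    ring
  rw [h3, Complex.norm_real, Real.norm_of_nonneg (by nlinarith)]
  have := Real.add_one_le_exp (-(2 * s) * q)
  linarith

/-- the factor of any root -/
theorem far_factor {s : ℝ} (hs0 : 0 ≤ s) {q : ℂ} {δ : ℝ} (hq : ‖q‖ ≤ δ) :
    ‖1 - 2 * (s : ℂ) * q‖ ≤ Real.exp (-(2 * s) * q.re + 4 * s * δ) := by
  have h1 : ‖1 - 2 * (s : ℂ) * q‖ ≤ 1 + 2 * s * ‖q‖ := by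
    refine (norm_sub_le _ _).trans ?_
    rw [norm_one, norm_mul, norm_mul, Complex.norm_real, Real.norm_of_nonneg hs0]
    simp
  have h2 := Real.add_one_le_exp (2 * s * ‖q‖)
  have h3 : q.re ≤ ‖q‖ := Complex.re_le_norm q
  have h4 : 2 * s * ‖q‖ ≤ -(2 * s) * q.re + 4 * s * δ := by nlinarith
  have h5 := Real.exp_le_exp.2 h4
  linarith

theorem norm_q_le {r b ε : ℝ} (hr : 0 < r) (hb : 0 < b) (hε : 0 < ε) {ρ : ℂ}
    (hρ : ε ≤ ‖ρ‖) (h : b * (r + ‖ρ‖) ≤ ‖(r : ℂ) - ρ‖) :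
    ‖p r ρ * (1 - p r ρ)‖ ≤ r / (b ^ 2 * ε) := by
  have hρ0 : 0 < ‖ρ‖ := lt_of_lt_of_le hε hρ
  have h1 : 0 < ‖(r : ℂ) - ρ‖ := lt_of_lt_of_le (by positivity) h
  have h2 : (r : ℂ) - ρ ≠ 0 := norm_pos_iff.1 h1
  rw [q_eq h2, norm_neg, norm_div, norm_mul, norm_pow, Complex.norm_real,
    Real.norm_of_nonneg hr.le, div_le_div_iff₀ (by positivity) (by positivity)]
  have h3 : b * ‖ρ‖ ≤ ‖(r : ℂ) - ρ‖ := le_trans (by nlinarith) h
  have h4 : (b * ‖ρ‖) ^ 2 ≤ ‖(r : ℂ) - ρ‖ ^ 2 := by gcongr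
  have h5 : b ^ 2 * ε * ‖ρ‖ ≤ (b * ‖ρ‖) ^ 2 := by
    have : b ^ 2 * (ε * ‖ρ‖) ≤ b ^ 2 * (‖ρ‖ * ‖ρ‖) := by gcongr
    nlinarith
  nlinarith

/-- the pointwise tail bound from the variance -/
theorem tail_aux {L : ℕ} {P : ℝ[X]} {C₁ R ψ c ε b r c₈ : ℝ} (hG : Good C₁ R ψ c ε L P)
    (hr : 0 < r) (hb : 0 < b) (hε : 0 < ε) (hd : ∀ ρ ∈ Z P, b * (r + ‖ρ‖) ≤ ‖(r : ℂ) - ρ‖)
    (hV : c₈ * (L * √r) ≤ V P r) (hr1 : √r ≤ c₈ * (b ^ 2 * ε) / 2) (hc8 : 0 < c₈)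
    {θ : ℝ} (hθ : |θ| ≤ Real.pi) :
    ‖aeval (pt r θ) P‖ ≤ Real.exp (-(c₈ / 10 * (L * √r) * θ ^ 2)) * P.eval r := by
  have hN : Nice L P := hG.toNice
  have hP : 0 < P.eval r := hN.eval_pos hr
  set s : ℝ := 1 - Real.cos θ with hs
  have hs0 : 0 ≤ s := by linarith [Real.cos_le_one θ]
  have hs2 : s ≤ 2 := by linarith [Real.neg_one_le_cos θ]
  have hsq := sq_formula hN θ hr
  have h1 : ∀ ρ ∈ Z P, ‖1 - 2 * (1 - (Real.cos θ : ℂ)) * (p r ρ * (1 - p r ρ))‖ ≤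
      Real.exp (-(2 * s) * (p r ρ * (1 - p r ρ)).re + 4 * s * (r / (b ^ 2 * ε))) := by
    intro ρ hρ
    have hcast : (1 - (Real.cos θ : ℂ)) = ((s : ℝ) : ℂ) := by
      rw [hs]
      push_cast
      ring
    rw [hcast]
    rcases lt_or_ge ‖ρ‖ ε with h2 | h2
    · obtain ⟨h3, h4⟩ := hG.neg ρ hρ h2
      refine (near_factor hr hs0 hs2 h3 h4).trans (Real.exp_le_exp.2 ?_)
      have : 0 ≤ 4 * s * (r / (b ^ 2 * ε)) := by positivity
      linarith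
    · exact far_factor hs0 (norm_q_le hr hb hε h2 (hd ρ hρ))
  have h2 := norm_prod_le_exp (Z P) _ _ h1
  have h3 : ((Z P).map fun ρ => -(2 * s) * (p r ρ * (1 - p r ρ)).re +
      4 * s * (r / (b ^ 2 * ε))).sum = -(2 * s) * V P r +
        (Z P).card * (4 * s * (r / (b ^ 2 * ε))) := by
    rw [Multiset.sum_map_add, Multiset.sum_map_mul_left, Multiset.map_const', Multiset.sum_replicate,
      V, re_sum_map, nsmul_eq_mul]
  rw [h3] at h2
  have hNr : 0 ≤ (L : ℝ) * √r := by positivity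
  have hsr : √r * √r = r := Real.mul_self_sqrt hr.le
  have h4 : ((Z P).card : ℝ) * (4 * s * (r / (b ^ 2 * ε))) ≤ s * c₈ * (L * √r) := by
    have h5 := card_Z_le hN
    have hbe : 0 < b ^ 2 * ε := by positivity
    have h6 : r / (b ^ 2 * ε) ≤ √r * (c₈ / 2) := by
      rw [div_le_iff₀ hbe]
      calc r = √r * √r := hsr.symm
        _ ≤ √r * (c₈ * (b ^ 2 * ε) / 2) := by gcongr
        _ = √r * (c₈ / 2) * (b ^ 2 * ε) := by ring
    have h7 : 0 ≤ r / (b ^ 2 * ε) := by positivity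
    calc ((Z P).card : ℝ) * (4 * s * (r / (b ^ 2 * ε)))
        = 2 * ((Z P).card : ℝ) * (2 * s * (r / (b ^ 2 * ε))) := by ring
      _ ≤ L * (2 * s * (√r * (c₈ / 2))) := by gcongr
      _ = s * c₈ * (L * √r) := by ring
  have h5 : -(2 * s) * V P r + (Z P).card * (4 * s * (r / (b ^ 2 * ε))) ≤
      -(s * c₈ * (L * √r)) := by
    have h6 : 2 * s * (c₈ * (L * √r)) ≤ 2 * s * V P r := by gcongr
    linarith
  have h6 : ‖aeval (pt r θ) P‖ ^ 2 ≤ P.eval r ^ 2 * Real.exp (-(s * c₈ * (L * √r))) := by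
    have h7 := congrArg norm hsq
    rw [Complex.norm_real, norm_mul, Complex.norm_real, Real.norm_of_nonneg (by positivity),
      Real.norm_of_nonneg (by positivity)] at h7
    rw [h7]
    have h8 := h2.trans (Real.exp_le_exp.2 h5)
    gcongr
  have h7 : θ ^ 2 / 5 ≤ s := by
    have h8 := Real.cos_le_one_sub_mul_cos_sq hθ
    have h9 : 1 / 5 ≤ 2 / Real.pi ^ 2 := by
      rw [div_le_div_iff₀ (by norm_num) (by positivity)]
      have := Real.pi_lt_d2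
      have h11 := Real.pi_pos
      nlinarith
    have h3 := mul_le_mul_of_nonneg_right h9 (sq_nonneg θ)
    linarith
  have h8 : P.eval r ^ 2 * Real.exp (-(s * c₈ * (L * √r))) ≤
      (Real.exp (-(c₈ / 10 * (L * √r) * θ ^ 2)) * P.eval r) ^ 2 := by
    rw [mul_pow, ← Real.exp_nat_mul, mul_comm]
    gcongr
    have h9 : θ ^ 2 / 5 * (c₈ * (L * √r)) ≤ s * (c₈ * (L * √r)) := by gcongr
    push_cast
    linarith
  exact le_of_sq_le_sq (h6.trans h8) (by positivity)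

end EVC
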