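import Pool.Agent.Helper3.EVC.Defs

/-!
# E06: the distance of the roots to the positive axis
-/

set_option autoImplicit false

namespace EVC

open Polynomial

theorem dist_ge {C₁ R ψ c ε : ℝ} (h : Adm C₁ R ψ c ε) : ∃ b : ℝ, 0 < b ∧ b ≤ 1 ∧ ∀ L : ℕ,
    ∀ P : ℝ[X], Good C₁ R ψ c ε L P → ∀ ρ ∈ Z P, ∀ r : ℝ, 0 < r → r ≤ R / 2 →
      b * (r + ‖ρ‖) ≤ ‖(r : ℂ) - ρ‖ := by
  have hcos1 : Real.cos ψ < 1 := by
    have h1 := Real.cos_lt_cos_of_nonneg_of_le_pi (le_refl (0 : ℝ))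
      (by linarith [h.hψ1, Real.pi_gt_three] : ψ ≤ Real.pi) h.hψ
    rwa [Real.cos_zero] at h1
  have hcos0 : 0 ≤ Real.cos ψ := by
    apply Real.cos_nonneg_of_neg_pi_div_two_le_of_le
    · linarith [h.hψ, Real.pi_gt_three]
    · linarith [h.hψ1, Real.pi_gt_three]
  refine ⟨min (1 / 3) ((1 - Real.cos ψ) / 2), lt_min (by norm_num) (by linarith),
    (min_le_left _ _).trans (by norm_num), ?_⟩
  intro L P hP ρ hρ r hr hrR
  have hρ0 := norm_nonneg ρ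
  by_cases hb : ‖ρ‖ ≤ R
  · have hsec := hP.sec ρ hρ hb
    have hcos : Real.cos ρ.arg ≤ Real.cos ψ := by
      rw [← Real.cos_abs ρ.arg]
      exact Real.cos_le_cos_of_nonneg_of_le_pi h.hψ.le (Complex.abs_arg_le_pi ρ) hsec
    have hre : ρ.re = ‖ρ‖ * Real.cos ρ.arg := (Complex.norm_mul_cos_arg ρ).symm
    have hsq : ‖(r : ℂ) - ρ‖ ^ 2 = r ^ 2 - 2 * r * ρ.re + ‖ρ‖ ^ 2 := by
      rw [← Complex.normSq_eq_norm_sq, ← Complex.normSq_eq_norm_sq, Complex.normSq_apply,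
        Complex.normSq_apply]
      simp
      ring
    have h1 : ρ.re ≤ ‖ρ‖ * Real.cos ψ := by
      rw [hre]
      exact mul_le_mul_of_nonneg_left hcos hρ0
    have h2 : (1 - Real.cos ψ) / 2 * (r + ‖ρ‖) ^ 2 ≤ ‖(r : ℂ) - ρ‖ ^ 2 := by
      rw [hsq]
      have h3 : r * ρ.re ≤ r * (‖ρ‖ * Real.cos ψ) := mul_le_mul_of_nonneg_left h1 hr.le
      have h4 : 0 ≤ (1 + Real.cos ψ) * (r - ‖ρ‖) ^ 2 := by positivity
      nlinarith
    obtain ⟨b, hb'⟩ : ∃ b, b = min (1 / 3) ((1 - Real.cos ψ) / 2) := ⟨_, rfl⟩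
    rw [← hb']
    have hb0 : 0 < b := by
      rw [hb']
      exact lt_min (by norm_num) (by linarith)
    have hb1 : b ≤ 1 / 3 := by rw [hb']; exact min_le_left _ _
    have hb2 : b ≤ (1 - Real.cos ψ) / 2 := by rw [hb']; exact min_le_right _ _
    have hb3 : b ^ 2 ≤ (1 - Real.cos ψ) / 2 := by nlinarith
    apply le_of_sq_le_sq _ (norm_nonneg _)
    rw [mul_pow]
    exact (mul_le_mul_of_nonneg_right hb3 (sq_nonneg _)).trans h2
  · push Not at hb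
    have h1 : ‖ρ‖ - r ≤ ‖(r : ℂ) - ρ‖ := by
      have := norm_sub_norm_le ρ (r : ℂ)
      rw [norm_sub_rev, Complex.norm_real, Real.norm_of_nonneg hr.le] at this
      exact this
    have h2 : min (1 / 3) ((1 - Real.cos ψ) / 2) * (r + ‖ρ‖) ≤ 1 / 3 * (r + ‖ρ‖) :=
      mul_le_mul_of_nonneg_right (min_le_left _ _) (by positivity)
    linarith

end EVC
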