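import Pool.Agent.Helper3.EVC.Defs

/-!
# EV, analytic half, leaf E11: variance of order `L √r`
-/

set_option autoImplicit false

namespace EVC

open Polynomial

private theorem norm_p_le {r b : ℝ} {ρ : ℂ} (hr : 0 < r) (hb : 0 < b)
    (hd : b * (r + ‖ρ‖) ≤ ‖(r : ℂ) - ρ‖) : ‖p r ρ‖ ≤ 1 / b := by
  have h1 : 0 < r + ‖ρ‖ := by positivity
  have h2 : 0 < ‖(r : ℂ) - ρ‖ := lt_of_lt_of_le (by positivity) hd
  rw [p, norm_div, Complex.norm_real, Real.norm_eq_abs, abs_of_pos hr, div_le_div_iff₀ h2 hb]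
  nlinarith [norm_nonneg ρ]

private theorem norm_pp_le {r b : ℝ} {ρ : ℂ} (hr : 0 < r) (hb : 0 < b)
    (hd : b * (r + ‖ρ‖) ≤ ‖(r : ℂ) - ρ‖) :
    ‖p r ρ * (1 - p r ρ)‖ ≤ 1 / b ^ 2 * min 1 (r / ‖ρ‖) := by
  have h1 : 0 < r + ‖ρ‖ := by positivity
  have h2 : 0 < ‖(r : ℂ) - ρ‖ := lt_of_lt_of_le (by positivity) hd
  have h3 : (r : ℂ) - ρ ≠ 0 := norm_pos_iff.1 h2
  have h4 : p r ρ * (1 - p r ρ) = -((r : ℂ) * ρ / ((r : ℂ) - ρ) ^ 2) := by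
    rw [p]
    field_simp
    ring
  rw [h4, norm_neg, norm_div, norm_mul, norm_pow, Complex.norm_real, Real.norm_eq_abs,
    abs_of_pos hr]
  have h5 : r * ‖ρ‖ / ‖(r : ℂ) - ρ‖ ^ 2 ≤ r * ‖ρ‖ / (b * (r + ‖ρ‖)) ^ 2 := by
    gcongr
  refine h5.trans ?_
  rcases eq_or_lt_of_le (norm_nonneg ρ) with h0 | h0
  · rw [← h0]
    simp
  · have h6 : r * ‖ρ‖ / (b * (r + ‖ρ‖)) ^ 2 = 1 / b ^ 2 * (r * ‖ρ‖ / (r + ‖ρ‖) ^ 2) := by
      field_simp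
    rw [h6]
    refine mul_le_mul_of_nonneg_left (le_min ?_ ?_) (by positivity)
    · rw [div_le_one (by positivity)]
      nlinarith
    · rw [div_le_div_iff₀ (by positivity) h0]
      nlinarith [mul_pos hr h0, mul_pos (mul_pos hr h0) hr, mul_pos hr hr]

/-- `W ≤ b⁻² M` -/
private theorem W_le_M {P : ℝ[X]} {r b : ℝ} (hr : 0 < r) (hb : 0 < b)
    (hd : ∀ ρ ∈ Z P, b * (r + ‖ρ‖) ≤ ‖(r : ℂ) - ρ‖) : W P r ≤ 1 / b ^ 2 * M P r := by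
  rw [W, M, ← Multiset.sum_map_mul_left]
  exact Multiset.sum_map_le_sum_map _ _ fun ρ hρ => norm_pp_le hr hb (hd ρ hρ)

private theorem inv_sq_le {L : ℕ} (hL : 2 ≤ L) {r C₈ : ℝ} (hr : 0 < r) (hC : 2 ≤ C₈)
    (hlog : C₈ * Real.log L ≤ L * √r) : 1 / (L : ℝ) ^ 2 ≤ r := by
  have hL' : (2 : ℝ) ≤ L := by exact_mod_cast hL
  have h1 : Real.log 2 ≤ Real.log L := Real.log_le_log (by norm_num) hL'
  have h2 : (0.69 : ℝ) < Real.log 2 := by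
    have := Real.log_two_gt_d9
    linarith
  have h3 : 1 ≤ L * √r := by nlinarith
  have h4 : 1 ≤ (L * √r) ^ 2 := by nlinarith
  rw [mul_pow, Real.sq_sqrt hr.le] at h4
  rw [div_le_iff₀ (by positivity)]
  linarith

/-- leaf E11 (`VW`) from the leaves `M_le` (E05), `dist_ge` (E06), `local_form` (E10) -/
theorem VW_of {C₁ R ψ c ε : ℝ} (h : Adm C₁ R ψ c ε)
    (M_le : ∃ K : ℝ, 1 ≤ K ∧ ∀ L : ℕ, 2 ≤ L →
      ∀ P : ℝ[X], Good C₁ R ψ c ε L P → ∀ r : ℝ, 1 / (L : ℝ) ^ 2 ≤ r → r ≤ R →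
        M P r ≤ K * (L * √r + Real.log L))
    (dist_ge : ∃ b : ℝ, 0 < b ∧ b ≤ 1 ∧ ∀ L : ℕ,
      ∀ P : ℝ[X], Good C₁ R ψ c ε L P → ∀ ρ ∈ Z P, ∀ r : ℝ, 0 < r → r ≤ R / 2 →
        b * (r + ‖ρ‖) ≤ ‖(r : ℂ) - ρ‖)
    (local_form : ∀ B : ℝ, 1 ≤ B → ∃ θ₂ : ℝ, 0 < θ₂ ∧ ∃ K : ℝ, 0 < K ∧ ∀ (L : ℕ) (P : ℝ[X]),
      Nice L P → ∀ r : ℝ, 0 < r → (∀ ρ ∈ Z P, ‖p r ρ‖ ≤ B) → ∀ θ : ℝ, |θ| ≤ θ₂ → ∃ w : ℂ,
        ‖w‖ ≤ K * W P r * |θ| ^ 3 ∧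
        aeval (pt r θ) P = ((P.eval r : ℝ) : ℂ) *
          Complex.exp (θ * mean P r * Complex.I - (θ : ℂ) ^ 2 / 2 * V P r + w)) :
    ∃ c₈ K C₈ : ℝ, 0 < c₈ ∧ 0 < K ∧ 2 ≤ C₈ ∧
    ∀ L : ℕ, 2 ≤ L → ∀ P : ℝ[X], Good C₁ R ψ c ε L P → ∀ r : ℝ, 0 < r →
      C₈ * Real.log L ≤ L * √r → r ≤ R / 2 →
        c₈ * (L * √r) ≤ V P r ∧ W P r ≤ K * (L * √r) := by
  obtain ⟨K₁, hK₁, hM⟩ := M_le
  obtain ⟨b, hb, hb1, hd⟩ := dist_ge
  obtain ⟨θ₂, hθ₂, K₂, hK₂, hloc⟩ := local_form (1 / b) (by rw [le_div_iff₀ hb]; linarith)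
  have hc := h.hc
  have hψ := h.hψ
  have hC₁ := h.hC
  have hR := h.hR
  set K : ℝ := 1 / b ^ 2 * (2 * K₁) with hK
  have hKpos : 0 < K := by positivity
  obtain ⟨θ, hθ0, hθ1, hθ2, hθ3⟩ : ∃ θ : ℝ, 0 < θ ∧ θ ≤ θ₂ ∧ θ ≤ ψ ∧ K₂ * K * θ ≤ c / 4 := by
    refine ⟨min (min θ₂ ψ) (c / (4 * (K₂ * K))), by positivity, (min_le_left _ _).trans
      (min_le_left _ _), (min_le_left _ _).trans (min_le_right _ _), ?_⟩
    have h1 : min (min θ₂ ψ) (c / (4 * (K₂ * K))) ≤ c / (4 * (K₂ * K)) := min_le_right _ _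
    calc K₂ * K * min (min θ₂ ψ) (c / (4 * (K₂ * K))) ≤ K₂ * K * (c / (4 * (K₂ * K))) := by
          gcongr
      _ = c / 4 := by field_simp
  refine ⟨c, K, max 2 (8 * C₁ / (c * θ ^ 2)), hc, hKpos, le_max_left _ _, ?_⟩
  intro L hL P hP r hr hlog hrR
  have hr2 := inv_sq_le hL hr (le_max_left _ _) hlog
  have hL' : (2 : ℝ) ≤ L := by exact_mod_cast hL
  have hlogpos : 0 < Real.log L := Real.log_pos (by linarith)
  have hsq : 0 < √r := Real.sqrt_pos.2 hr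
  set y : ℝ := L * √r with hy
  have hy0 : 0 < y := by positivity
  have hly : Real.log L ≤ y := by
    have : 2 * Real.log L ≤ max 2 (8 * C₁ / (c * θ ^ 2)) * Real.log L := by
      gcongr
      exact le_max_left _ _
    linarith
  have hly2 : 8 * C₁ * Real.log L ≤ c * θ ^ 2 * y := by
    have h1 : 8 * C₁ / (c * θ ^ 2) * Real.log L ≤ y := by
      refine le_trans ?_ hlog
      gcongr
      exact le_max_right _ _
    have h2 : 8 * C₁ * Real.log L = c * θ ^ 2 * (8 * C₁ / (c * θ ^ 2) * Real.log L) := by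
      field_simp
    rw [h2]
    gcongr
  have hdist : ∀ ρ ∈ Z P, b * (r + ‖ρ‖) ≤ ‖(r : ℂ) - ρ‖ := fun ρ hρ => hd L P hP ρ hρ r hr hrR
  have hW : W P r ≤ K * y := by
    refine (W_le_M hr hb hdist).trans ?_
    have h1 := hM L hL P hP r hr2 (by linarith)
    rw [hK, mul_assoc]
    refine mul_le_mul_of_nonneg_left (h1.trans ?_) (by positivity)
    nlinarith
  refine ⟨?_, hW⟩
  obtain ⟨w, hw, hform⟩ := hloc L P hP.toNice r hr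
    (fun ρ hρ => norm_p_le hr hb (hdist ρ hρ)) θ (by rw [abs_of_pos hθ0]; exact hθ1)
  have hhi := hP.hi r θ hr2 (by linarith) (by rw [abs_of_pos hθ0]; exact hθ2)
  have hlo := hP.lo r hr2 (by linarith)
  have hPr : 0 < P.eval r := (Real.exp_pos _).trans_le hlo
  rw [hform, norm_mul, Complex.norm_real, Real.norm_eq_abs, abs_of_pos hPr, Complex.norm_exp] at hhi
  have hre : (θ * mean P r * Complex.I - (θ : ℂ) ^ 2 / 2 * V P r + w).re =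
      -(θ ^ 2 / 2 * V P r) + w.re := by
    have h1 : (θ : ℂ) * mean P r * Complex.I - (θ : ℂ) ^ 2 / 2 * V P r + w =
        ((θ * mean P r : ℝ) : ℂ) * Complex.I + ((-(θ ^ 2 / 2 * V P r) : ℝ) : ℂ) + w := by
      push_cast
      ring
    rw [h1, Complex.add_re, Complex.add_re, Complex.ofReal_re, Complex.re_ofReal_mul,
      Complex.I_re, mul_zero, zero_add]
  rw [hre] at hhi
  have h5 : Real.exp (L * A r - C₁ * Real.log L) * Real.exp (-(θ ^ 2 / 2 * V P r) + w.re) ≤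
      Real.exp (L * A r - c * L * √r * θ ^ 2 + C₁ * Real.log L) :=
    le_trans (by gcongr) hhi
  rw [← Real.exp_add, Real.exp_le_exp] at h5
  have h6 : -(K₂ * W P r * θ ^ 3) ≤ w.re := by
    have h7 := (abs_le.1 ((Complex.abs_re_le_norm w).trans hw)).1
    rwa [abs_of_pos hθ0] at h7
  have h8 : K₂ * W P r * θ ^ 3 ≤ c / 4 * y * θ ^ 2 := by
    calc K₂ * W P r * θ ^ 3 ≤ K₂ * (K * y) * θ ^ 3 := by gcongr
      _ = (K₂ * K * θ) * y * θ ^ 2 := by ring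
      _ ≤ c / 4 * y * θ ^ 2 := by gcongr
  have h9 : c * L * √r * θ ^ 2 = c * y * θ ^ 2 := by rw [hy]; ring
  have h10 : θ ^ 2 * (c * y) ≤ θ ^ 2 * V P r := by nlinarith
  exact le_of_mul_le_mul_left h10 (by positivity)

end EVC
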