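import Pool.Agent.Helper3.EVC.E13a

set_option autoImplicit false

namespace EVC

open Polynomial

/-- `tail_small` with the statements of `VW` and `dist_ge` as hypotheses -/
theorem tail_small_of {C₁ R ψ c ε : ℝ} (h : Adm C₁ R ψ c ε)
    (hVW : ∃ c₈ K C₈ : ℝ, 0 < c₈ ∧ 0 < K ∧ 2 ≤ C₈ ∧
      ∀ L : ℕ, 2 ≤ L → ∀ P : ℝ[X], Good C₁ R ψ c ε L P → ∀ r : ℝ, 0 < r →
        C₈ * Real.log L ≤ L * √r → r ≤ R / 2 →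
          c₈ * (L * √r) ≤ V P r ∧ W P r ≤ K * (L * √r))
    (hdist : ∃ b : ℝ, 0 < b ∧ b ≤ 1 ∧ ∀ L : ℕ,
      ∀ P : ℝ[X], Good C₁ R ψ c ε L P → ∀ ρ ∈ Z P, ∀ r : ℝ, 0 < r → r ≤ R / 2 →
        b * (r + ‖ρ‖) ≤ ‖(r : ℂ) - ρ‖) :
    ∃ r₁ c₉ C₉ : ℝ, 0 < r₁ ∧ r₁ ≤ R / 2 ∧ 0 < c₉ ∧
      2 ≤ C₉ ∧ ∀ L : ℕ, 2 ≤ L → ∀ P : ℝ[X], Good C₁ R ψ c ε L P → ∀ r : ℝ, 0 < r →
        C₉ * Real.log L ≤ L * √r → r ≤ r₁ → ∀ θ : ℝ, |θ| ≤ Real.pi →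
          ‖aeval (pt r θ) P‖ ≤ Real.exp (-(c₉ * (L * √r) * θ ^ 2)) * P.eval r := by
  obtain ⟨c₈, K, C₈, h8, -, hC8, H8⟩ := hVW
  obtain ⟨b, hb, -, Hb⟩ := hdist
  have hε := h.hε
  have hR : 0 < R := by linarith [h.hR]
  set κ : ℝ := c₈ * (b ^ 2 * ε) / 2 with hκ
  have hκ0 : 0 < κ := by positivity
  refine ⟨min (R / 2) (κ ^ 2), c₈ / 10, C₈, lt_min (by positivity) (by positivity),
    min_le_left _ _, by positivity, hC8, fun L hL P hG r hr hlog hr1 θ hθ => ?_⟩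
  have hr2 : r ≤ R / 2 := hr1.trans (min_le_left _ _)
  have hr3 : √r ≤ κ := by
    rw [Real.sqrt_le_left hκ0.le]
    exact hr1.trans (min_le_right _ _)
  exact tail_aux hG hr hb hε (fun ρ hρ => Hb L P hG ρ hρ r hr hr2)
    (H8 L hL P hG r hr hlog hr2).1 hr3 h8 hθ

end EVC
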