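import Pool.Agent.Helper3.EVC.E05
import Pool.Agent.Helper3.EVC.E06
import Pool.Agent.Helper3.EVC.E10
import Pool.Agent.Helper3.EVC.E11
import Pool.Agent.Helper3.EVC.E13b

set_option autoImplicit false

namespace EVC

open Polynomial

theorem VW {C₁ R ψ c ε : ℝ} (h : Adm C₁ R ψ c ε) : ∃ c₈ K C₈ : ℝ, 0 < c₈ ∧ 0 < K ∧ 2 ≤ C₈ ∧
    ∀ L : ℕ, 2 ≤ L → ∀ P : ℝ[X], Good C₁ R ψ c ε L P → ∀ r : ℝ, 0 < r →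
      C₈ * Real.log L ≤ L * √r → r ≤ R / 2 →
        c₈ * (L * √r) ≤ V P r ∧ W P r ≤ K * (L * √r) :=
  VW_of h (M_le h) (dist_ge h) fun _ hB => local_form hB

theorem tail_small {C₁ R ψ c ε : ℝ} (h : Adm C₁ R ψ c ε) : ∃ r₁ c₉ C₉ : ℝ, 0 < r₁ ∧ r₁ ≤ R / 2 ∧ 0 < c₉ ∧
    2 ≤ C₉ ∧ ∀ L : ℕ, 2 ≤ L → ∀ P : ℝ[X], Good C₁ R ψ c ε L P → ∀ r : ℝ, 0 < r →
      C₉ * Real.log L ≤ L * √r → r ≤ r₁ → ∀ θ : ℝ, |θ| ≤ Real.pi →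
        ‖aeval (pt r θ) P‖ ≤ Real.exp (-(c₉ * (L * √r) * θ ^ 2)) * P.eval r :=
  tail_small_of h (VW h) (dist_ge h)

end EVC
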