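import Pool.Agent.Helper3.EVC.Defs
import Pool.Agent.Helper49.EV.LowCore

/-!
# EVC, E19: low coefficients (contains E16, E17, E18 in the form of `Helper49.EV.key`,
`Helper49.EV.newton_ineq`, `Helper49.EV.low`)
-/

set_option autoImplicit false

namespace EVC

open Polynomial

theorem A_four_sinh {x : ℝ} (hx : 0 ≤ x) (m : ℝ) (hm : 0 ≤ m) :
    A (4 * (m * Real.sinh x) ^ 2) = Real.arsinh (m * Real.sinh x) := by
  unfold A
  congr 1
  have h1 : 0 ≤ m * Real.sinh x := mul_nonneg hm (Real.sinh_nonneg_iff.2 hx)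
  rw [show 4 * (m * Real.sinh x) ^ 2 = (2 * (m * Real.sinh x)) ^ 2 by ring,
    Real.sqrt_sq (by positivity)]
  ring

theorem low {C₁ R ψ c ε : ℝ} (h : Adm C₁ R ψ c ε) (J : ℝ) : ∃ L₀ : ℕ, ∀ L : ℕ, L₀ ≤ L →
    ∀ P : ℝ[X], Good C₁ R ψ c ε L P → ∀ k : ℕ, 1 ≤ k → (k : ℝ) ≤ J * Real.log L →
      P.coeff (k - 1) * P.coeff (k + 1) ≤ P.coeff k ^ 2 := by
  classical
  have heps := h.hε
  set C2 : ℝ := max J 1 with hC2d
  have hC2 : 0 < C2 := lt_of_lt_of_le one_pos (le_max_right _ _)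
  have hC1 := h.hC
  set M : ℝ := 3 * C₁ + 6 * C2 + 7 with hM
  have hM1 : 1 ≤ M := by linarith
  obtain ⟨η, hη, b2, b3, b4⟩ : ∃ η : ℝ, 0 < η ∧ 4 * M * η ≤ 1 ∧
      32768 * M ^ 2 * η ≤ ε ∧ 65536 * (C2 + 1) * M ^ 2 * η ≤ ε := by
    have m2 : 0 < 4 * M := by positivity
    have m3 : 0 < 32768 * M ^ 2 := by positivity
    have m4 : 0 < 65536 * (C2 + 1) * M ^ 2 := by positivity
    refine ⟨min (1 / (4 * M))
      (min (ε / (32768 * M ^ 2)) (ε / (65536 * (C2 + 1) * M ^ 2))), by positivity, ?_, ?_, ?_⟩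
    · have := min_le_left (1 / (4 * M))
        (min (ε / (32768 * M ^ 2)) (ε / (65536 * (C2 + 1) * M ^ 2)))
      rwa [le_div_iff₀ m2, mul_comm] at this
    · have := (min_le_right (1 / (4 * M))
        (min (ε / (32768 * M ^ 2)) (ε / (65536 * (C2 + 1) * M ^ 2)))).trans (min_le_left _ _)
      rwa [le_div_iff₀ m3, mul_comm] at this
    · have := (min_le_right (1 / (4 * M))
        (min (ε / (32768 * M ^ 2)) (ε / (65536 * (C2 + 1) * M ^ 2)))).trans (min_le_right _ _)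
      rwa [le_div_iff₀ m4, mul_comm] at this
  have ev1 : ∀ᶠ L : ℕ in Filter.atTop, 1 ≤ Real.log (L : ℝ) :=
    (Real.tendsto_log_atTop.comp tendsto_natCast_atTop_atTop).eventually_ge_atTop _
  have ev2 : ∀ᶠ L : ℕ in Filter.atTop, Real.log (L : ℝ) ^ 3 / (1 * (L : ℝ) + 0) < η := by
    have h1 := (Real.tendsto_pow_log_div_mul_add_atTop 1 0 3 one_ne_zero).comp
      (tendsto_natCast_atTop_atTop (R := ℝ))
    exact (tendsto_order.1 h1).2 _ hη
  obtain ⟨L0, hL0⟩ := Filter.eventually_atTop.1 ((ev1.and ev2).and (Filter.eventually_ge_atTop 1))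
  refine ⟨L0, fun L hL P hP k hk1 hk => ?_⟩
  obtain ⟨⟨hl1, c2⟩, c3⟩ := hL0 L hL
  rw [one_mul, add_zero] at c2
  set l := Real.log (L : ℝ) with hl
  have hLpos : (0 : ℝ) < L := by
    have : 0 < L := by omega
    exact_mod_cast this
  set ξ : ℝ := M * l / L with hξ
  have hξ0 : 0 < ξ := by positivity
  have hl3 : l ≤ l ^ 3 := by nlinarith [mul_nonneg (sub_nonneg.2 hl1) (sub_nonneg.2 hl1)]
  have hξη : ξ ≤ M * η := by
    rw [hξ, mul_div_assoc]
    apply mul_le_mul_of_nonneg_left _ (by linarith)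
    exact (div_le_div_of_nonneg_right hl3 hLpos.le).trans c2.le
  have hξ4 : ξ ≤ 1 / 4 := by linarith
  have hsh : Real.sinh ξ ≤ 2 * ξ :=
    Pool.Agent.Helper49.EV.sinh_le_two hξ0.le (by linarith)
  have hsh0 : 0 < Real.sinh ξ := Real.sinh_pos_iff.2 hξ0
  have hshlo : ξ ≤ Real.sinh ξ := Real.self_le_sinh_iff.2 hξ0.le
  set ρ : ℝ := 4 * Real.sinh ξ ^ 2 with hρ
  have hρ0 : 0 < ρ := by positivity
  have hρ1 : ρ ≤ 16 * ξ ^ 2 := by
    rw [hρ]
    have := pow_le_pow_left₀ hsh0.le hsh 2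
    linarith
  have hξ2 : ξ ^ 2 = M ^ 2 * (l ^ 2 / L) / L := by
    rw [hξ]
    field_simp
  have hl2 : l ^ 2 / L ≤ η := by
    have : l ^ 2 ≤ l ^ 3 := by nlinarith [sq_nonneg l]
    exact (div_le_div_of_nonneg_right this hLpos.le).trans c2.le
  have hL1 : (1 : ℝ) ≤ L := by exact_mod_cast c3
  have hξ2' : ξ ^ 2 * L = M ^ 2 * (l ^ 2 / L) := by
    rw [hξ2]
    field_simp
  have hξsq : ξ ^ 2 ≤ M ^ 2 * η := by
    have h1 : ξ ^ 2 ≤ ξ ^ 2 * L := by nlinarith [sq_nonneg ξ]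
    rw [hξ2'] at h1
    exact h1.trans (mul_le_mul_of_nonneg_left hl2 (by positivity))
  have hρe : 2048 * ρ ≤ ε := by linarith
  have hlow : 1 / (L : ℝ) ^ 2 ≤ ρ := by
    rw [hρ]
    have h1 : (1 : ℝ) / L ≤ ξ := by
      rw [hξ]
      apply div_le_div_of_nonneg_right _ hLpos.le
      nlinarith
    have h2 : (1 : ℝ) / L ≤ Real.sinh ξ := h1.trans hshlo
    have h3 : ((1 : ℝ) / L) ^ 2 ≤ Real.sinh ξ ^ 2 := pow_le_pow_left₀ (by positivity) h2 2
    rw [div_pow, one_pow] at h3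
    nlinarith [sq_nonneg (Real.sinh ξ)]
  -- the bounds at real points
  have hval : ∀ r : ℝ, 1 / (L : ℝ) ^ 2 ≤ r → r ≤ 1024 * ρ → 0 < P.eval r ∧
      L * A r - C₁ * l ≤ Real.log (P.eval r) ∧ Real.log (P.eval r) ≤ L * A r + C₁ * l := by
    intro r hr1 hr2
    have hrR : r ≤ R := by
      have := h.hR
      have := h.hε1
      linarith
    have e1 := hP.lo r hr1 hrR
    have e2 := hP.hi r 0 hr1 hrR (by rw [abs_zero]; exact h.hψ.le)
    have e3 : pt r 0 = (r : ℂ) := by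
      unfold pt
      simp
    have e4 : 0 < P.eval r := lt_of_lt_of_le (Real.exp_pos _) e1
    have e5 : ‖aeval (r : ℂ) P‖ = P.eval r := by
      have e6 : aeval (r : ℂ) P = ((P.eval r : ℝ) : ℂ) := by
        have := Polynomial.aeval_algebraMap_apply ℂ r P
        rw [Polynomial.coe_aeval_eq_eval] at this
        exact this
      rw [e6, Complex.norm_real, Real.norm_eq_abs, abs_of_pos e4]
    rw [e3, e5] at e2
    refine ⟨e4, ?_, ?_⟩
    · rw [Real.le_log_iff_exp_le e4]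
      exact e1
    · rw [Real.log_le_iff_le_exp e4]
      refine e2.trans (Real.exp_le_exp.2 ?_)
      rw [← hl]
      have : c * L * √r * 0 ^ 2 = 0 := by ring
      rw [this]
      linarith
  -- the three points
  set ξ2 : ℝ := Real.arsinh (4 * Real.sinh ξ) with hx2
  set ξ3 : ℝ := Real.arsinh (32 * Real.sinh ξ) with hx3
  have s2 : Real.sinh ξ2 = 4 * Real.sinh ξ := Real.sinh_arsinh _
  have s3 : Real.sinh ξ3 = 32 * Real.sinh ξ := Real.sinh_arsinh _
  have l2 : 3 * ξ ≤ ξ2 := by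
    rw [← Real.sinh_le_sinh, s2, Real.sinh_three_mul]
    have h1 : Real.sinh ξ ≤ 1 / 2 := by linarith
    have h2 : Real.sinh ξ ^ 2 ≤ (1 / 2) ^ 2 := pow_le_pow_left₀ hsh0.le h1 2
    have h3 : 4 * Real.sinh ξ ^ 3 ≤ Real.sinh ξ := by
      have : Real.sinh ξ ^ 3 = Real.sinh ξ ^ 2 * Real.sinh ξ := by ring
      rw [this]
      nlinarith
    linarith
  have u3 : ξ3 ≤ 32 * ξ := by
    rw [← Real.sinh_le_sinh, s3]
    exact Pool.Agent.Helper49.EV.sinh_32 hξ0.le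
  have A1 : A ρ = ξ := by
    have := A_four_sinh hξ0.le 1 zero_le_one
    rw [one_mul, Real.arsinh_sinh] at this
    exact this
  have A2 : A (16 * ρ) = ξ2 := by
    have := A_four_sinh hξ0.le 4 (by norm_num)
    rw [show 4 * (4 * Real.sinh ξ) ^ 2 = 16 * ρ by rw [hρ]; ring] at this
    exact this
  have A3 : A (1024 * ρ) = ξ3 := by
    have := A_four_sinh hξ0.le 32 (by norm_num)
    rw [show 4 * (32 * Real.sinh ξ) ^ 2 = 1024 * ρ by rw [hρ]; ring] at this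
    exact this
  obtain ⟨p1, -, q1⟩ := hval ρ hlow (by linarith)
  obtain ⟨p2, q2, -⟩ := hval (16 * ρ) (by linarith) (by linarith)
  obtain ⟨p3, -, q3⟩ := hval (1024 * ρ) (by linarith) le_rfl
  rw [A1] at q1
  rw [A2] at q2
  rw [A3] at q3
  have hreal : ∀ z ∈ (P.map Complex.ofRealHom).roots, ‖z‖ < ε → z.im = 0 ∧ z.re < 0 :=
    fun z hz hz2 => hP.neg z hz hz2
  have hkey := Pool.Agent.Helper49.EV.key P hP.one hρ0 heps hρe hreal p1 p2 p3
  set N := Multiset.card ((P.map Complex.ofRealHom).roots.filter fun z => ‖z‖ ≤ 1024 * ρ) with hN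
  have hdegR : 2 * (P.natDegree : ℝ) ≤ L := by exact_mod_cast hP.deg
  have hDρ : (P.natDegree : ℝ) * (1024 * ρ) ≤ 8192 * (M ^ 2 * (l ^ 2 / L)) := by
    rw [← hξ2']
    calc (P.natDegree : ℝ) * (1024 * ρ) ≤ (L / 2) * (1024 * (16 * ξ ^ 2)) :=
          mul_le_mul (by linarith) (by linarith) (by positivity) (by positivity)
      _ = 8192 * (ξ ^ 2 * L) := by ring
  have hDη : (P.natDegree : ℝ) * (1024 * ρ / ε) ≤ 1 := by
    rw [← mul_div_assoc, div_le_one heps]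
    have h1 : M ^ 2 * (l ^ 2 / L) ≤ M ^ 2 * η := mul_le_mul_of_nonneg_left hl2 (by positivity)
    have h2 : 0 ≤ M ^ 2 * η := by positivity
    linarith
  have log16 : Real.log 16 ≤ 3 := by
    have h1 : Real.log 16 = 4 * Real.log 2 := by
      rw [show (16 : ℝ) = 2 ^ (4 : ℕ) by norm_num, Real.log_pow]
      norm_num
    rw [h1]
    linarith [Real.log_two_lt_d9]
  have f4 : (L : ℝ) * (3 * ξ) ≤ L * ξ2 := mul_le_mul_of_nonneg_left l2 hLpos.le
  have f5 : (L : ℝ) * ξ3 ≤ L * (32 * ξ) := mul_le_mul_of_nonneg_left u3 hLpos.le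
  have f6 : (L : ℝ) * ξ = M * l := by
    rw [hξ]
    field_simp
  have hN3 : (N : ℝ) * Real.log 16 ≤ N * 3 := mul_le_mul_of_nonneg_left log16 (by positivity)
  have i3 : M * l = 3 * (C₁ * l) + 6 * (C2 * l) + 7 * l := by rw [hM]; ring
  have i4 : 0 < C₁ * l := by positivity
  have hNbig : 2 * (C2 * l) + 2 ≤ N := by
    have j1 : (L : ℝ) * (3 * ξ) = 3 * (M * l) := by rw [← f6]; ring
    have j2 : (L : ℝ) * (32 * ξ) = 32 * (M * l) := by rw [← f6]; ring
    rw [j1] at f4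
    rw [j2] at f5
    rw [f6] at q1
    linarith
  -- conclusion
  set K := ⌊C2 * l⌋₊ with hK
  have hKle : (K : ℝ) ≤ C2 * l := Nat.floor_le (by positivity)
  have hkK : k ≤ K := by
    refine Nat.le_floor (hk.trans ?_)
    exact mul_le_mul_of_nonneg_right (le_max_left _ _) (by linarith)
  refine (Pool.Agent.Helper49.EV.low P P.natDegree K ε (1024 * ρ) (by positivity) le_rfl
    (by linarith [hP.one]) hreal ?_ (by linarith) ?_ k hk1 hkK).2.le
  · have : ((2 * (K + 1) : ℕ) : ℝ) ≤ N := by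
      push_cast
      linarith
    exact_mod_cast this
  · have h1 : 8 * ((K : ℝ) + 1) * P.natDegree * (1024 * ρ) =
        8 * ((K : ℝ) + 1) * ((P.natDegree : ℝ) * (1024 * ρ)) := by ring
    rw [h1]
    have h2 : (K : ℝ) + 1 ≤ (C2 + 1) * l := by linarith
    calc 8 * ((K : ℝ) + 1) * ((P.natDegree : ℝ) * (1024 * ρ))
        ≤ 8 * ((C2 + 1) * l) * (8192 * (M ^ 2 * (l ^ 2 / L))) :=
          mul_le_mul (by linarith) hDρ (by positivity) (by positivity)
      _ = 65536 * (C2 + 1) * M ^ 2 * (l ^ 3 / L) := by ring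
      _ ≤ 65536 * (C2 + 1) * M ^ 2 * η := mul_le_mul_of_nonneg_left c2.le (by positivity)
      _ ≤ ε := b4

end EVC
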