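import Pool.Agent.Helper3.EVC.Defs

set_option autoImplicit false

namespace EVC

open Polynomial

/-- `A (2a) - A a → (log 2) / 2`, with a rate. -/
private theorem e20b_A_diff {a : ℝ} (ha : 0 < a) : Real.log 2 / 2 - 1 / a ≤ A (2 * a) - A a := by
  have hx : 0 < √a / 2 := by positivity
  obtain ⟨x, hxdef⟩ : ∃ x, x = √a / 2 := ⟨_, rfl⟩
  rw [← hxdef] at hx
  have hx2 : 4 * x ^ 2 = a := by rw [hxdef, div_pow, Real.sq_sqrt ha.le]; ring
  have hexp : Real.exp (A a) = x + √(1 + x ^ 2) := by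
    unfold A; rw [← hxdef]; exact Real.exp_arsinh x
  have hexp2 : Real.exp (A (2 * a)) = √2 * (x + √(1 / 2 + x ^ 2)) := by
    unfold A
    have h1 : √(2 * a) / 2 = √2 * x := by
      rw [Real.sqrt_mul (by norm_num : (0 : ℝ) ≤ 2), hxdef]; ring
    rw [Real.exp_arsinh, h1, mul_add]
    congr 1
    rw [← Real.sqrt_mul (by norm_num : (0 : ℝ) ≤ 2)]
    congr 1
    rw [mul_pow, Real.sq_sqrt (by norm_num : (0 : ℝ) ≤ 2)]; ring
  obtain ⟨s, hs⟩ : ∃ s, s = √(1 + x ^ 2) := ⟨_, rfl⟩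
  obtain ⟨u, hu⟩ : ∃ u, u = √(1 / 2 + x ^ 2) := ⟨_, rfl⟩
  have hs2 : s ^ 2 = 1 + x ^ 2 := by rw [hs]; exact Real.sq_sqrt (by positivity)
  have hu2 : u ^ 2 = 1 / 2 + x ^ 2 := by rw [hu]; exact Real.sq_sqrt (by positivity)
  have hs0 : 0 ≤ s := by rw [hs]; exact Real.sqrt_nonneg _
  have hu0 : 0 ≤ u := by rw [hu]; exact Real.sqrt_nonneg _
  have hsx : x ≤ s := by nlinarith
  have hux : x ≤ u := by nlinarith
  have hsu : (s - u) * (s + u) = 1 / 2 := by nlinarith
  have hsu0 : 0 ≤ s - u := by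
    by_contra hneg
    push Not at hneg
    have : (s - u) * (s + u) ≤ 0 := mul_nonpos_of_nonpos_of_nonneg hneg.le (by linarith)
    linarith
  have hkey : a * (s - u) ≤ x := by
    have h2 : 2 * x * (s - u) ≤ (s + u) * (s - u) :=
      mul_le_mul_of_nonneg_right (by linarith) hsu0
    have h3 : 2 * x * (2 * x * (s - u)) ≤ 2 * x * ((s + u) * (s - u)) :=
      mul_le_mul_of_nonneg_left h2 (by linarith)
    have h4 : a * (s - u) = 2 * x * (2 * x * (s - u)) := by rw [← hx2]; ring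
    have h5 : 2 * x * ((s + u) * (s - u)) = x := by
      have : (s + u) * (s - u) = 1 / 2 := by linarith
      rw [this]; ring
    linarith
  have hmain : Real.exp (Real.log 2 / 2 - 1 / a + A a) ≤ Real.exp (A (2 * a)) := by
    rw [Real.exp_add, hexp, hexp2, ← hs, ← hu, sub_eq_add_neg, Real.exp_add, Real.exp_half,
      Real.exp_log (by norm_num : (0 : ℝ) < 2), mul_assoc]
    refine mul_le_mul_of_nonneg_left ?_ (Real.sqrt_nonneg 2)
    rw [Real.exp_neg, inv_mul_le_iff₀ (Real.exp_pos _)]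
    have h6 : 1 / a + 1 ≤ Real.exp (1 / a) := Real.add_one_le_exp (1 / a)
    have h7 : (1 / a + 1) * (x + u) ≤ Real.exp (1 / a) * (x + u) :=
      mul_le_mul_of_nonneg_right h6 (by linarith)
    refine le_trans ?_ h7
    have h8 : (1 / a + 1) * (x + u) = (x + u) + (x + u) / a := by ring
    rw [h8]
    have h9 : s - u ≤ (x + u) / a := by
      rw [le_div_iff₀ ha]
      nlinarith
    linarith
  have := Real.exp_le_exp.1 hmain
  linarith

private theorem e20b_eval_pos {L : ℕ} {P : ℝ[X]} (h : Nice L P) {r : ℝ} (hr : 0 < r) :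
    0 < P.eval r := by
  have h1 : P.coeff 0 * r ^ 0 ≤ P.eval r := by
    rw [Polynomial.eval_eq_sum_range]
    apply Finset.single_le_sum (f := fun i => P.coeff i * r ^ i)
    · intro i _
      exact mul_nonneg (h.nn i) (pow_nonneg hr.le i)
    · simp
  have h2 := h.one
  rw [pow_zero, mul_one] at h1
  linarith

private theorem e20b_mean_mul {L : ℕ} {P : ℝ[X]} (h : Nice L P) {b : ℝ} (hb : 0 < b) :
    mean P b * P.eval b = ∑ k ∈ Finset.range (P.natDegree + 1), (k : ℝ) * (P.coeff k * b ^ k) := by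
  have h0 := e20b_eval_pos h hb
  unfold mean
  rw [div_mul_cancel₀ _ h0.ne', Polynomial.derivative_eval,
    Polynomial.sum_over_range _ (by intro n; simp), Finset.mul_sum]
  refine Finset.sum_congr rfl fun k _ => ?_
  rcases Nat.eq_zero_or_pos k with rfl | hk
  · simp
  · obtain ⟨m, rfl⟩ : ∃ m, k = m + 1 := ⟨k - 1, by omega⟩
    rw [Nat.add_sub_cancel, pow_succ]
    ring

/-- Jensen: `P(b/2) ≥ P(b) 2^{-mean(b)}`. -/
private theorem e20b_half {L : ℕ} {P : ℝ[X]} (h : Nice L P) {b : ℝ} (hb : 0 < b) :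
    P.eval b * Real.exp (-(Real.log 2 * mean P b)) ≤ P.eval (b / 2) := by
  have hm := e20b_mean_mul h hb
  obtain ⟨m, hmdef⟩ : ∃ m, m = mean P b := ⟨_, rfl⟩
  rw [← hmdef] at hm ⊢
  have hP : P.eval b = ∑ k ∈ Finset.range (P.natDegree + 1), P.coeff k * b ^ k :=
    Polynomial.eval_eq_sum_range b
  have h1 : P.eval (b / 2) =
      ∑ k ∈ Finset.range (P.natDegree + 1), P.coeff k * b ^ k * Real.exp (-(Real.log 2 * k)) := by
    rw [Polynomial.eval_eq_sum_range]
    refine Finset.sum_congr rfl fun k _ => ?_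
    have : Real.exp (-(Real.log 2 * k)) = ((2 : ℝ) ^ k)⁻¹ := by
      rw [Real.exp_neg, mul_comm, Real.exp_nat_mul, Real.exp_log (by norm_num : (0 : ℝ) < 2)]
    rw [this, div_pow]
    ring
  have h2 : ∀ k ∈ Finset.range (P.natDegree + 1),
      P.coeff k * b ^ k * (Real.exp (-(Real.log 2 * m)) * (1 - Real.log 2 * (k - m))) ≤
        P.coeff k * b ^ k * Real.exp (-(Real.log 2 * k)) := by
    intro k _
    refine mul_le_mul_of_nonneg_left ?_ (mul_nonneg (h.nn k) (pow_nonneg hb.le k))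
    have h3 : Real.exp (-(Real.log 2 * k)) =
        Real.exp (-(Real.log 2 * m)) * Real.exp (-(Real.log 2 * (k - m))) := by
      rw [← Real.exp_add]; congr 1; ring
    rw [h3]
    refine mul_le_mul_of_nonneg_left ?_ (Real.exp_pos _).le
    have := Real.add_one_le_exp (-(Real.log 2 * (k - m)))
    linarith
  rw [h1]
  refine le_trans (le_of_eq ?_) (Finset.sum_le_sum h2)
  have h4 : ∑ k ∈ Finset.range (P.natDegree + 1),
      P.coeff k * b ^ k * (Real.exp (-(Real.log 2 * m)) * (1 - Real.log 2 * (k - m))) =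
      Real.exp (-(Real.log 2 * m)) * ((1 + Real.log 2 * m) *
        ∑ k ∈ Finset.range (P.natDegree + 1), P.coeff k * b ^ k -
        Real.log 2 * ∑ k ∈ Finset.range (P.natDegree + 1), (k : ℝ) * (P.coeff k * b ^ k)) := by
    rw [Finset.mul_sum, Finset.mul_sum, ← Finset.sum_sub_distrib, Finset.mul_sum]
    refine Finset.sum_congr rfl fun k _ => ?_
    ring
  rw [h4, ← hm, ← hP]
  ring

theorem mean_top {δ : ℝ} (hδ : 0 < δ) : ∃ R₀ : ℝ, 1 ≤ R₀ ∧ ∀ R : ℝ, R₀ ≤ R → ∀ C₁ ψ c ε : ℝ,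
    Adm C₁ R ψ c ε → ∃ L₀ : ℕ, ∀ L : ℕ, L₀ ≤ L → ∀ P : ℝ[X], Good C₁ R ψ c ε L P →
      P.natDegree - δ * L ≤ mean P (R / 2) := by
  refine ⟨max 1 (16 / δ), le_max_left _ _, ?_⟩
  intro R hR C₁ ψ c ε hA
  have hR1 : 1 ≤ R := le_trans (le_max_left _ _) hR
  have hRδ : 16 / δ ≤ R := le_trans (le_max_right _ _) hR
  have hR0 : 0 < R := by linarith
  have hlog2 : (1 : ℝ) / 2 < Real.log 2 := by
    have := Real.log_two_gt_d9; linarith
  have hlog20 : 0 < Real.log 2 := by linarith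
  -- `log L` is small compared with `L`
  have hε' : 0 < δ * Real.log 2 / (4 * C₁) := by
    have := hA.hC; positivity
  obtain ⟨N, hN⟩ := Filter.eventually_atTop.1
    ((Real.isLittleO_log_id_atTop.bound hε').and (Filter.eventually_ge_atTop (1 : ℝ)))
  refine ⟨max 2 (Nat.ceil N), ?_⟩
  intro L hL P hG
  have hL2 : 2 ≤ L := le_trans (le_max_left _ _) hL
  have hLN : N ≤ (L : ℝ) := le_trans (Nat.le_ceil N) (by exact_mod_cast le_trans (le_max_right _ _) hL)
  have hL0 : (0 : ℝ) < L := by exact_mod_cast (by omega : 0 < L)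
  have hL2' : (2 : ℝ) ≤ L := by exact_mod_cast hL2
  have hlogL : C₁ * Real.log L ≤ δ * Real.log 2 / 4 * L := by
    have h1 := (hN L hLN).1
    have h2 : 0 ≤ Real.log L := Real.log_nonneg (by linarith)
    rw [Real.norm_of_nonneg h2, id, Real.norm_of_nonneg hL0.le] at h1
    have h3 := mul_le_mul_of_nonneg_left h1 hA.hC.le
    refine h3.trans (le_of_eq ?_)
    have := hA.hC.ne'
    field_simp
  have hb : 0 < R / 2 := by linarith
  have ha : 0 < R / 4 := by linarith
  have hL2inv : 1 / (L : ℝ) ^ 2 ≤ 1 / 4 := by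
    apply one_div_le_one_div_of_le (by norm_num)
    nlinarith
  -- lower bound at `R / 2`
  have hlo := hG.lo (R / 2) (by linarith) (by linarith)
  -- upper bound at `R / 4`
  have hhi := hG.hi (R / 4) 0 (by linarith) (by linarith) (by rw [abs_zero]; exact hA.hψ.le)
  have hpt : pt (R / 4) 0 = ((R / 4 : ℝ) : ℂ) := by
    unfold pt; simp
  have hnorm : ‖aeval (pt (R / 4) 0) P‖ = P.eval (R / 4) := by
    rw [hpt]
    have : aeval ((R / 4 : ℝ) : ℂ) P = ((P.eval (R / 4) : ℝ) : ℂ) := by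
      rw [← Complex.coe_algebraMap, Polynomial.aeval_algebraMap_apply, Polynomial.coe_aeval_eq_eval]
    rw [this, Complex.norm_real, Real.norm_of_nonneg (e20b_eval_pos hG.toNice ha).le]
  rw [hnorm] at hhi
  have hhi' : P.eval (R / 4) ≤ Real.exp (L * A (R / 4) + C₁ * Real.log L) := by
    refine hhi.trans (le_of_eq ?_)
    congr 1
    ring
  have hJ := e20b_half hG.toNice hb
  have hR4 : R / 2 / 2 = R / 4 := by ring
  rw [hR4] at hJ
  have hchain : Real.exp (L * A (R / 2) - C₁ * Real.log L - Real.log 2 * mean P (R / 2)) ≤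
      Real.exp (L * A (R / 4) + C₁ * Real.log L) := by
    rw [sub_eq_add_neg _ (Real.log 2 * mean P (R / 2)), Real.exp_add]
    exact (mul_le_mul_of_nonneg_right hlo (Real.exp_pos _).le).trans (hJ.trans hhi')
  have hlin := Real.exp_le_exp.1 hchain
  have hAd := e20b_A_diff ha
  have h2a : 2 * (R / 4) = R / 2 := by ring
  rw [h2a] at hAd
  have hone : 1 / (R / 4) = 4 / R := by field_simp
  rw [hone] at hAd
  have h4R : 4 / R ≤ δ / 4 := by
    rw [div_le_iff₀ hR0]
    have : 16 ≤ R * δ := by rwa [div_le_iff₀ hδ] at hRδ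
    nlinarith
  have hdeg : (P.natDegree : ℝ) ≤ L / 2 := by
    have := hG.deg
    have h5 : (2 * P.natDegree : ℝ) ≤ L := by exact_mod_cast this
    linarith
  -- assemble
  have h6 : L * (Real.log 2 / 2 - δ / 4) ≤ L * (A (R / 2) - A (R / 4)) :=
    mul_le_mul_of_nonneg_left (by linarith) hL0.le
  have h7 : L * (Real.log 2 / 2 - δ / 4) - 2 * (δ * Real.log 2 / 4 * L) ≤
      Real.log 2 * mean P (R / 2) := by nlinarith
  have h8 : Real.log 2 * (L / 2 - δ * L) ≤ Real.log 2 * mean P (R / 2) := by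
    refine le_trans ?_ h7
    nlinarith [mul_pos hδ hL0, mul_pos (mul_pos hδ hL0) (sub_pos.2 hlog2)]
  have h9 : L / 2 - δ * L ≤ mean P (R / 2) := le_of_mul_le_mul_left h8 hlog20
  linarith

end EVC
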