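import Pool.Agent.Helper3.EVC.E03
import Pool.Agent.Helper3.EVC.E05
import Pool.Agent.Helper3.EVC.E06
import Pool.Agent.Helper3.EVC.E07
import Pool.Agent.Helper3.EVC.E10
import Pool.Agent.Helper3.EVC.E13
import Pool.Agent.Helper3.EVC.E15
import Pool.Agent.Helper3.EVC.E19
import Pool.Agent.Helper3.EVC.E20a
import Pool.Agent.Helper3.EVC.E20b

set_option autoImplicit false

namespace EVC

open Polynomial

theorem bulk {C₁ R ψ c ε : ℝ} (h : Adm C₁ R ψ c ε) : ∃ r₁ : ℝ, 0 < r₁ ∧ ∀ c₃ C₃ : ℝ, 0 < c₃ →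
    ∃ C₈ : ℝ, 2 ≤ C₈ ∧ ∃ L₀ : ℕ, ∀ L : ℕ, L₀ ≤ L → ∀ P : ℝ[X], Good C₁ R ψ c ε L P →
      H3 c₃ C₃ r₁ R L P → ∀ r : ℝ, 0 < r → C₈ * Real.log L ≤ L * √r → r ≤ R / 2 →
        ∀ k : ℕ, 1 ≤ k → mean P r = k → P.coeff (k - 1) * P.coeff (k + 1) < P.coeff k ^ 2 :=
  bulk_of h (dist_ge h) (fun _ hB => local_form hB) (VW h) (tail_small h)

theorem mean_le {C₁ R ψ c ε : ℝ} (h : Adm C₁ R ψ c ε) : ∃ K : ℝ, 0 < K ∧ ∀ L : ℕ, 2 ≤ L →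
    ∀ P : ℝ[X], Good C₁ R ψ c ε L P → ∀ r : ℝ, 1 / (L : ℝ) ^ 2 ≤ r → r ≤ R / 2 →
      mean P r ≤ K * (L * √r + Real.log L) :=
  mean_le_of (M_le h) (dist_ge h) mean_eq

theorem core_eval_pos {L : ℕ} {P : ℝ[X]} (h : Nice L P) {r : ℝ} (hr : 0 ≤ r) : 0 < P.eval r := by
  have h1 : P.coeff 0 ≤ P.eval r := by
    rw [Polynomial.eval_eq_sum_range]
    have : P.coeff 0 = P.coeff 0 * r ^ 0 := by simp
    rw [this]
    exact Finset.single_le_sum (f := fun i => P.coeff i * r ^ i)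
      (fun i _ => mul_nonneg (h.nn i) (pow_nonneg hr i)) (by simp)
  linarith [h.one]

theorem mean_continuousOn {L : ℕ} {P : ℝ[X]} (h : Nice L P) (a b : ℝ) (ha : 0 < a) :
    ContinuousOn (mean P) (Set.Icc a b) := by
  unfold mean
  refine ContinuousOn.div (by fun_prop) (by fun_prop) ?_
  intro x hx
  exact (core_eval_pos h (ha.le.trans hx.1)).ne'

/-- `log L / L → 0` in the form used. -/
theorem ev_small (C R : ℝ) (hR : 0 < R) : ∃ L₀ : ℕ, 2 ≤ L₀ ∧ ∀ L : ℕ, L₀ ≤ L →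
    (C * Real.log L / L) ^ 2 ≤ R := by
  have h1 : Filter.Tendsto (fun L : ℕ => (C * (Real.log L / L)) ^ 2) Filter.atTop (nhds 0) := by
    have h2 : Filter.Tendsto (fun x : ℝ => Real.log x / x) Filter.atTop (nhds 0) := by
      have := Real.isLittleO_log_id_atTop.tendsto_div_nhds_zero
      simpa using this
    have h3 := (h2.comp tendsto_natCast_atTop_atTop).const_mul C
    simp only [mul_zero] at h3
    have h4 := h3.pow 2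
    simpa using h4
  have h2 := (h1.eventually (gt_mem_nhds hR)).and (Filter.eventually_ge_atTop 2)
  obtain ⟨L₀, hL₀⟩ := Filter.eventually_atTop.1 h2
  refine ⟨L₀, (hL₀ L₀ le_rfl).2, fun L hL => ?_⟩
  have := (hL₀ L hL).1.le
  rwa [mul_div_assoc]

theorem core (Fam : ℕ → Set ℝ[X]) (hN : ∀ L, ∀ P ∈ Fam L, Nice L P)
    (h1 : ∀ Φ : ℝ, 0 < Φ → ∃ θ₀ : ℝ, 0 < θ₀ ∧ ∃ a : ℕ, ∃ c : ℝ, 0 < c ∧ ∃ C : ℝ, 0 < C ∧
      ∀ L, ∀ P ∈ Fam L, H1 a c C Φ θ₀ L P)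
    (h3 : ∀ r₀ R : ℝ, 0 < r₀ → ∃ c : ℝ, 0 < c ∧ ∃ C : ℝ, ∀ L, ∀ P ∈ Fam L, H3 c C r₀ R L P)
    (h4 : ∃ c : ℝ, 0 < c ∧ ∃ L₁ : ℕ, ∀ L, L₁ ≤ L → ∀ P ∈ Fam L, ∀ k : ℕ, 1 ≤ k →
      (P.natDegree : ℝ) ≤ k + c * L → P.coeff (k - 1) * P.coeff (k + 1) ≤ P.coeff k ^ 2) :
    ∃ L₀ : ℕ, ∀ L, L₀ ≤ L → ∀ P ∈ Fam L, ∀ k : ℕ, 1 ≤ k →
      P.coeff (k - 1) * P.coeff (k + 1) ≤ P.coeff k ^ 2 := by
  obtain ⟨δ, hδ, L₁, h4⟩ := h4
  obtain ⟨R₀, hR₀, htop⟩ := mean_top hδ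
  obtain ⟨θ₀, hθ₀, a, c, hc, C, hC, h1⟩ := h1 (A R₀) (E03.A_pos (by linarith))
  obtain ⟨C₁, ψ, c', ε, hAdm, hgood⟩ := good_of_H1 (a := a) hc hC hR₀ hθ₀
  obtain ⟨r₁, hr₁, hbulk⟩ := bulk hAdm
  obtain ⟨c₃, hc₃, C₃, h3⟩ := h3 r₁ R₀ hr₁
  obtain ⟨C₈, hC₈, L₂, hbulk⟩ := hbulk c₃ C₃ hc₃
  obtain ⟨K, hK, hmean⟩ := mean_le hAdm
  obtain ⟨L₃, hlow⟩ := low hAdm (K * (C₈ + 1))
  obtain ⟨L₄, htop⟩ := htop R₀ le_rfl C₁ ψ c' ε hAdm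
  obtain ⟨L₅, hL₅, hsm⟩ := ev_small C₈ (R₀ / 2) (by linarith)
  refine ⟨max L₁ (max L₂ (max L₃ (max L₄ L₅))), fun L hL P hP k hk => ?_⟩
  simp only [max_le_iff] at hL
  obtain ⟨hL1, hL2, hL3, hL4, hL5⟩ := hL
  have hL2' : 2 ≤ L := hL₅.trans hL5
  have hNi := hN L P hP
  have hG := hgood L hL2' P hNi (h1 L P hP)
  by_cases hk1 : (k : ℝ) ≤ K * (C₈ + 1) * Real.log L
  · exact hlow L hL3 P hG k hk hk1
  by_cases hk2 : (P.natDegree : ℝ) ≤ k + δ * L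
  · exact h4 L hL1 P hP k hk hk2
  push Not at hk1 hk2
  have hLpos : (0 : ℝ) < L := by exact_mod_cast (by omega : 0 < L)
  have hL2r : (2 : ℝ) ≤ L := by exact_mod_cast hL2'
  have hlog : Real.log 2 ≤ Real.log L := Real.log_le_log (by norm_num) hL2r
  have hlog2 : (1 : ℝ) / 2 < Real.log 2 := by
    have := Real.log_two_gt_d9
    linarith
  have hlogpos : 0 < Real.log L := by linarith
  set r₀ : ℝ := (C₈ * Real.log L / L) ^ 2 with hr₀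
  have hr₀pos : 0 < r₀ := by positivity
  have hsq : √r₀ = C₈ * Real.log L / L := by
    rw [hr₀, Real.sqrt_sq (by positivity)]
  have hLr : (L : ℝ) * √r₀ = C₈ * Real.log L := by
    rw [hsq]; field_simp
  have hr₀R : r₀ ≤ R₀ / 2 := hsm L hL5
  have hr₀L : 1 / (L : ℝ) ^ 2 ≤ r₀ := by
    rw [hr₀, div_pow]
    apply div_le_div_of_nonneg_right _ (by positivity)
    have : (1 : ℝ) ≤ C₈ * Real.log L := by nlinarith
    nlinarith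
  have hm1 : mean P r₀ ≤ K * (C₈ + 1) * Real.log L := by
    have := hmean L hL2' P hG r₀ hr₀L hr₀R
    rw [hLr] at this
    linarith
  have hm2 : P.natDegree - δ * L ≤ mean P (R₀ / 2) := htop L hL4 P hG
  have hk3 : (k : ℝ) ∈ Set.Icc (mean P r₀) (mean P (R₀ / 2)) := ⟨by linarith, by linarith⟩
  obtain ⟨r, hr, hrk⟩ := intermediate_value_Icc hr₀R (mean_continuousOn hNi r₀ _ hr₀pos) hk3
  have hrpos : 0 < r := lt_of_lt_of_le hr₀pos hr.1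
  refine (hbulk L hL2 P hG (h3 L P hP) r hrpos ?_ hr.2 k hk hrk).le
  rw [← hLr]
  exact mul_le_mul_of_nonneg_left (Real.sqrt_le_sqrt hr.1) hLpos.le

end EVC
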