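import Pool.Agent.Helper3.EVC.Defs

set_option autoImplicit false

namespace EVC

/-! ## E01: geometry of `t = 4 sinh(x+iy)^2` -/

private theorem T_eq (x y r θ : ℝ) (hr : 0 ≤ r)
    (h1 : Real.sinh x * Real.cos y = √r / 2 * Real.cos (θ / 2))
    (h2 : Real.cosh x * Real.sin y = √r / 2 * Real.sin (θ / 2)) : T x y = pt r θ := by
  have e1 : Complex.sinh ((x : ℂ) + y * Complex.I) =
      ((√r / 2 * Real.cos (θ / 2) : ℝ) : ℂ) +
        ((√r / 2 * Real.sin (θ / 2) : ℝ) : ℂ) * Complex.I := by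
    rw [Complex.sinh_add, Complex.sinh_mul_I, Complex.cosh_mul_I, ← h1, ← h2]
    push_cast
    ring
  have e2 : Complex.exp ((θ : ℂ) * Complex.I) =
      ((Real.cos θ : ℝ) : ℂ) + ((Real.sin θ : ℝ) : ℂ) * Complex.I := by
    rw [Complex.exp_mul_I]
    push_cast
    ring
  have hs : √r ^ 2 = r := Real.sq_sqrt hr
  have e3 : Real.cos θ = Real.cos (θ / 2) ^ 2 - Real.sin (θ / 2) ^ 2 := by
    have := Real.cos_two_mul' (θ / 2)
    rwa [mul_div_cancel₀ θ (by norm_num)] at this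
  have e4 : Real.sin θ = 2 * Real.sin (θ / 2) * Real.cos (θ / 2) := by
    have := Real.sin_two_mul (θ / 2)
    rwa [mul_div_cancel₀ θ (by norm_num)] at this
  unfold T pt
  rw [e1, e2, e3, e4]
  have hs' : ((√r : ℝ) : ℂ) ^ 2 = (r : ℂ) := by
    rw [← Complex.ofReal_pow, hs]
  push_cast
  linear_combination ((Complex.cos (θ / 2) + Complex.sin (θ / 2) * Complex.I) ^ 2) * hs' +
    (r : ℂ) * Complex.sin (θ / 2) ^ 2 * Complex.I_sq

private theorem sinh_sub_le {a b : ℝ} (ha : 0 ≤ a) (hab : a ≤ b) :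
    Real.sinh b - Real.sinh a ≤ (b - a) * Real.cosh b := by
  rw [mul_comm]
  refine (convex_Icc a b).image_sub_le_mul_sub_of_deriv_le Real.continuous_sinh.continuousOn
    Real.differentiable_sinh.differentiableOn ?_ a ⟨le_rfl, hab⟩ b ⟨hab, le_rfl⟩ hab
  intro x hx
  rw [interior_Icc] at hx
  rw [Real.deriv_sinh, Real.cosh_le_cosh, abs_of_nonneg (ha.trans hx.1.le),
    abs_of_nonneg (ha.trans hab)]
  exact hx.2.le

theorem geo {R θ₀ : ℝ} (hR : 0 < R) (hθ : 0 < θ₀) :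
    ∃ ψ > 0, ∃ c > 0, ∀ r θ : ℝ, 0 < r → r ≤ R → |θ| ≤ ψ →
      ∃ x y : ℝ, |y| ≤ θ₀ ∧ c * √r ≤ x ∧ x ≤ A r - c * √r * θ ^ 2 ∧ T x y = pt r θ := by
  have hsR : 0 < √R := Real.sqrt_pos.2 hR
  obtain ⟨Q, hQ⟩ : ∃ Q, Q = √(1 + R / 4) := ⟨_, rfl⟩
  have hQ2 : Q ^ 2 = 1 + R / 4 := by rw [hQ]; exact Real.sq_sqrt (by positivity)
  have hQ1 : 1 ≤ Q := by
    rw [hQ]
    exact Real.one_le_sqrt.2 (by linarith)
  have hm : 0 < min θ₀ 1 := lt_min hθ one_pos
  refine ⟨min θ₀ 1 / (√R + 1), by positivity, 1 / (64 * Q ^ 3), by positivity, ?_⟩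
  intro r θ hr hrR hψ
  have hsr : 0 < √r := Real.sqrt_pos.2 hr
  have hsq : √r ^ 2 = r := Real.sq_sqrt hr.le
  have hsrR : √r ≤ √R := Real.sqrt_le_sqrt hrR
  have hψ1 : |θ| * (√R + 1) ≤ min θ₀ 1 := (le_div_iff₀ (by positivity)).1 hψ
  have hθ1 : |θ| ≤ 1 := by
    have h1 : min θ₀ 1 ≤ 1 := min_le_right _ _
    have h2 : |θ| * 1 ≤ |θ| * (√R + 1) :=
      mul_le_mul_of_nonneg_left (by linarith) (abs_nonneg _)
    linarith
  have hpi := Real.pi_gt_three
  have hpi4 := Real.pi_le_four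
  -- the two coordinates
  obtain ⟨β, hβ⟩ : ∃ β, β = √r / 2 * Real.sin (θ / 2) := ⟨_, rfl⟩
  obtain ⟨α, hα⟩ : ∃ α, α = √r / 2 * Real.cos (θ / 2) := ⟨_, rfl⟩
  have hab : α ^ 2 + β ^ 2 = r / 4 := by
    have := Real.sin_sq_add_cos_sq (θ / 2)
    rw [hα, hβ]
    linear_combination (√r ^ 2 / 4) * this + hsq / 4
  have hhalf : |θ / 2| ≤ 1 / 2 := by
    rw [abs_div, abs_two]
    linarith
  have hcos : 1 / 2 ≤ Real.cos (θ / 2) := by
    have h1 := Real.one_sub_sq_div_two_le_cos (x := θ / 2)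
    have h2 : (θ / 2) ^ 2 ≤ 1 := by
      rw [← sq_abs]
      exact pow_le_one₀ (abs_nonneg _) (by linarith)
    linarith
  have hα4 : √r / 4 ≤ α := by
    rw [hα]
    have := mul_le_mul_of_nonneg_left hcos (show 0 ≤ √r / 2 by positivity)
    linarith
  have hα0 : 0 < α := lt_of_lt_of_le (by positivity) hα4
  have hsin_hi : |Real.sin (θ / 2)| ≤ |θ| / 2 := by
    have := Real.abs_sin_le_abs (x := θ / 2)
    rwa [abs_div, abs_two] at this
  have hsin_lo : |θ| / 4 ≤ |Real.sin (θ / 2)| := by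
    have h1 := Real.mul_abs_le_abs_sin (x := θ / 2) (by linarith)
    rw [abs_div, abs_two] at h1
    refine le_trans ?_ h1
    have h2 : (1 : ℝ) / 2 ≤ 2 / Real.pi := by
      rw [div_le_div_iff₀ (by norm_num) (by linarith)]
      linarith
    have h3 : 0 ≤ |θ| / 2 := by positivity
    have := mul_le_mul_of_nonneg_right h2 h3
    linarith
  have hβhi : |β| ≤ √R * |θ| / 4 := by
    rw [hβ, abs_mul, abs_of_nonneg (show 0 ≤ √r / 2 by positivity)]
    have h1 : √r / 2 * |Real.sin (θ / 2)| ≤ √r / 2 * (|θ| / 2) :=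
      mul_le_mul_of_nonneg_left hsin_hi (by positivity)
    have h2 : √r * |θ| ≤ √R * |θ| := mul_le_mul_of_nonneg_right hsrR (abs_nonneg _)
    linarith
  have hβm : |β| ≤ min θ₀ 1 / 4 := by
    have : √R * |θ| ≤ |θ| * (√R + 1) := by nlinarith [abs_nonneg θ]
    linarith
  have hβ1 : |β| ≤ 1 := by
    have h1 : min θ₀ 1 ≤ 1 := min_le_right _ _
    linarith
  have hβθ : |β| ≤ θ₀ / 4 := by
    have h1 : min θ₀ 1 ≤ θ₀ := min_le_left _ _
    linarith
  have hβlo : r * θ ^ 2 / 64 ≤ β ^ 2 := by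
    have h1 : (|θ| / 4) ^ 2 ≤ |Real.sin (θ / 2)| ^ 2 := pow_le_pow_left₀ (by positivity) hsin_lo 2
    rw [sq_abs, div_pow, sq_abs] at h1
    rw [hβ, mul_pow, div_pow, hsq]
    have := mul_le_mul_of_nonneg_left h1 (show 0 ≤ r / 2 ^ 2 by positivity)
    linarith
  -- the point `x`
  have hsA : Real.sinh (A r) = √r / 2 := by
    unfold A
    exact Real.sinh_arsinh _
  have hA0 : 0 ≤ A r := by
    unfold A
    exact Real.arsinh_nonneg_iff.2 (by positivity)
  have hcA : Real.cosh (A r) ≤ Q := by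
    have h1 : Real.cosh (A r) ^ 2 ≤ Q ^ 2 := by
      rw [hQ2, Real.cosh_sq, hsA, div_pow, hsq]
      linarith
    exact (sq_le_sq₀ (Real.cosh_pos _).le (by linarith)).1 h1
  obtain ⟨x, ⟨hx0, hxA⟩, hx⟩ : ∃ x ∈ Set.Icc 0 (A r),
      Real.sinh x ^ 2 + β ^ 2 / Real.cosh x ^ 2 = r / 4 := by
    have hcont : ContinuousOn (fun x : ℝ => Real.sinh x ^ 2 + β ^ 2 / Real.cosh x ^ 2)
        (Set.Icc 0 (A r)) := by
      apply Continuous.continuousOn
      refine (Real.continuous_sinh.pow 2).add (continuous_const.div (Real.continuous_cosh.pow 2) ?_)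
      intro x
      exact (pow_pos (Real.cosh_pos x) 2).ne'
    have := intermediate_value_Icc hA0 hcont
    have hmem : r / 4 ∈ Set.Icc ((fun x : ℝ => Real.sinh x ^ 2 + β ^ 2 / Real.cosh x ^ 2) 0)
        ((fun x : ℝ => Real.sinh x ^ 2 + β ^ 2 / Real.cosh x ^ 2) (A r)) := by
      constructor
      · simp only [Real.sinh_zero, Real.cosh_zero]
        have := sq_nonneg α
        norm_num
        linarith
      · simp only [hsA, div_pow, hsq]
        have : 0 ≤ β ^ 2 / Real.cosh (A r) ^ 2 := by positivity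
        linarith
    obtain ⟨x, hx1, hx2⟩ := this hmem
    exact ⟨x, hx1, hx2⟩
  have hcx1 : 1 ≤ Real.cosh x := Real.one_le_cosh x
  have hcxQ : Real.cosh x ≤ Q := by
    refine le_trans ?_ hcA
    rw [Real.cosh_le_cosh, abs_of_nonneg hx0, abs_of_nonneg hA0]
    exact hxA
  have hcx0 : 0 < Real.cosh x := by linarith
  have hcsq : Real.cosh x ^ 2 = Real.sinh x ^ 2 + 1 := Real.cosh_sq x
  have hsx0 : 0 ≤ Real.sinh x := Real.sinh_nonneg_iff.2 hx0
  obtain ⟨v, hv⟩ : ∃ v, v = β / Real.cosh x := ⟨_, rfl⟩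
  have hvβ : |v| ≤ |β| := by
    rw [hv, abs_div, abs_of_pos hcx0]
    exact div_le_self (abs_nonneg _) hcx1
  have hv1 : |v| ≤ 1 := hvβ.trans hβ1
  have hv1' := abs_le.1 hv1
  have hvc : Real.cosh x * v = β := by
    rw [hv]
    field_simp
  have hv2 : v ^ 2 = β ^ 2 / Real.cosh x ^ 2 := by rw [hv, div_pow]
  have hsiny : Real.sin (Real.arcsin v) = v := Real.sin_arcsin hv1'.1 hv1'.2
  have hcosy : Real.cos (Real.arcsin v) = √(1 - v ^ 2) := Real.cos_arcsin v
  have hsx2 : Real.sinh x ^ 2 = r / 4 - v ^ 2 := by rw [hv2]; linarith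
  refine ⟨x, Real.arcsin v, ?_, ?_, ?_, ?_⟩
  · -- the bound of `y`
    have hy : |Real.arcsin v| ≤ Real.pi / 2 := abs_le.2 ⟨Real.neg_pi_div_two_le_arcsin v,
      Real.arcsin_le_pi_div_two v⟩
    have h1 := Real.mul_abs_le_abs_sin hy
    rw [hsiny] at h1
    have h2 : (1 : ℝ) / 2 ≤ 2 / Real.pi := by
      rw [div_le_div_iff₀ (by norm_num) (by linarith)]
      linarith
    have h3 := mul_le_mul_of_nonneg_right h2 (abs_nonneg (Real.arcsin v))
    linarith
  · -- the lower bound of `x`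
    have h1 : α ≤ Real.sinh x := by
      have h2 : α ^ 2 ≤ Real.sinh x ^ 2 := by
        have h3 : v ^ 2 ≤ β ^ 2 := by
          rw [← sq_abs v, ← sq_abs β]
          exact pow_le_pow_left₀ (abs_nonneg _) hvβ 2
        linarith
      exact (sq_le_sq₀ hα0.le hsx0).1 h2
    have h2 : Real.sinh x ≤ x * Real.cosh x := by
      have := sinh_sub_le (a := 0) le_rfl hx0
      rw [Real.sinh_zero] at this
      linarith
    have h3 : x * Real.cosh x ≤ x * Q := mul_le_mul_of_nonneg_left hcxQ hx0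
    have h4 : √r / 4 ≤ x * Q := by linarith
    have h5 : 1 / (64 * Q ^ 3) * √r ≤ (√r / 4) / Q := by
      rw [div_mul_eq_mul_div, div_div, div_le_div_iff₀ (by positivity) (by positivity)]
      have : Q ≤ Q ^ 3 := by nlinarith [sq_nonneg (Q - 1), sq_nonneg Q]
      nlinarith
    refine h5.trans ?_
    rw [div_le_iff₀ (by linarith)]
    exact h4
  · -- the upper bound of `x`
    have h1 : Real.sinh (A r) ^ 2 - Real.sinh x ^ 2 = v ^ 2 := by
      rw [hsA, div_pow, hsq, hsx2]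
      ring
    have h2 : Real.sinh (A r) - Real.sinh x ≤ (A r - x) * Q :=
      (sinh_sub_le hx0 hxA).trans (mul_le_mul_of_nonneg_left hcA (by linarith))
    have h3 : Real.sinh x ≤ Real.sinh (A r) := Real.sinh_le_sinh.2 hxA
    have h4 : v ^ 2 ≤ (A r - x) * Q * √r := by
      have h5 : v ^ 2 = (Real.sinh (A r) - Real.sinh x) * (Real.sinh (A r) + Real.sinh x) := by
        rw [← h1]; ring
      rw [h5]
      have h6 : Real.sinh (A r) + Real.sinh x ≤ √r := by
        rw [hsA] at h3 ⊢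
        linarith
      exact mul_le_mul h2 h6 (by linarith [hsA ▸ (by positivity : (0 : ℝ) ≤ √r / 2)])
        (mul_nonneg (by linarith) (by linarith))
    have h7 : β ^ 2 / Q ^ 2 ≤ v ^ 2 := by
      rw [hv2]
      exact div_le_div_of_nonneg_left (sq_nonneg _) (by positivity)
        (pow_le_pow_left₀ hcx0.le hcxQ 2)
    have h8 : r * θ ^ 2 / 64 / Q ^ 2 ≤ (A r - x) * Q * √r :=
      (div_le_div_of_nonneg_right hβlo (by positivity)).trans (h7.trans h4)
    have h9 : 1 / (64 * Q ^ 3) * √r * θ ^ 2 * (Q * √r) ≤ (A r - x) * (Q * √r) := by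
      have e : 1 / (64 * Q ^ 3) * √r * θ ^ 2 * (Q * √r) = √r ^ 2 * θ ^ 2 / 64 / Q ^ 2 := by
        field_simp
      rw [e, hsq]
      linarith
    have := le_of_mul_le_mul_right h9 (by positivity)
    linarith
  · -- the equation
    apply T_eq x (Real.arcsin v) r θ hr.le
    · rw [hcosy, ← hα]
      have h1 : (Real.sinh x * √(1 - v ^ 2)) ^ 2 = α ^ 2 := by
        rw [mul_pow, Real.sq_sqrt (by
          have : v ^ 2 ≤ 1 := by
            rw [← sq_abs]
            exact pow_le_one₀ (abs_nonneg _) hv1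
          linarith)]
        have h2 : Real.cosh x ^ 2 * v ^ 2 = β ^ 2 := by rw [← mul_pow, hvc]
        rw [hcsq, hsx2] at h2
        rw [hsx2]
        linear_combination -h2 - hab
      have h3 : 0 ≤ Real.sinh x * √(1 - v ^ 2) := mul_nonneg hsx0 (Real.sqrt_nonneg _)
      exact (pow_left_inj₀ h3 hα0.le (by norm_num)).1 h1
    · rw [hsiny, hvc, hβ]

end EVC
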