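import Pool.Agent.Helper3.EVC.Defs

/-!
# E02: `geo0`
-/

set_option autoImplicit false

namespace EVC

theorem geo0_cont : ContinuousAt
    (fun u : ℂ => Complex.log (u + Complex.exp (Complex.log (1 + u ^ 2) / 2))) 0 := by
  have h1 : ContinuousAt (fun u : ℂ => 1 + u ^ 2) 0 := by fun_prop
  have h2 : ContinuousAt (fun u : ℂ => Complex.log (1 + u ^ 2)) 0 := by
    refine h1.clog ?_
    simp [Complex.slitPlane]
  have h3 : ContinuousAt (fun u : ℂ => u + Complex.exp (Complex.log (1 + u ^ 2) / 2)) 0 := by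
    refine continuousAt_id.add ?_
    exact (Complex.continuous_exp.continuousAt).comp (h2.div_const 2)
  refine h3.clog ?_
  simp [Complex.slitPlane]

theorem geo0 {θ₀ Φ : ℝ} (hθ : 0 < θ₀) (hΦ : 0 < Φ) :
    ∃ ε > 0, ∀ t : ℂ, ‖t‖ < ε → t ∈ Complex.slitPlane →
      ∃ x y : ℝ, 0 < x ∧ x ≤ Φ ∧ |y| ≤ θ₀ ∧ T x y = t := by
  have hm : 0 < min (min Φ θ₀) 1 := lt_min (lt_min hΦ hθ) one_pos
  obtain ⟨δ, hδ, hd⟩ := Metric.continuousAt_iff.1 geo0_cont _ hm
  refine ⟨min (4 * δ ^ 2) 1, lt_min (by positivity) one_pos, fun t ht hs => ?_⟩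
  have ht1 : ‖t‖ < 4 * δ ^ 2 := lt_of_lt_of_le ht (min_le_left _ _)
  have ht2 : ‖t‖ < 1 := lt_of_lt_of_le ht (min_le_right _ _)
  obtain ⟨harg, ht0⟩ := Complex.mem_slitPlane_iff_arg.1 hs
  -- the square root
  set v : ℂ := Complex.exp (Complex.log t / 2) with hv
  have hv2 : v ^ 2 = t := by
    rw [hv, ← Complex.exp_nat_mul]
    push_cast
    rw [mul_div_cancel₀ _ (two_ne_zero)]
    exact Complex.exp_log ht0
  have hvre : 0 < v.re := by
    rw [hv, Complex.exp_re]
    refine mul_pos (Real.exp_pos _) (Real.cos_pos_of_mem_Ioo ⟨?_, ?_⟩)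
    · have : (Complex.log t / 2).im = t.arg / 2 := by
        rw [show (2 : ℂ) = ((2 : ℝ) : ℂ) by norm_num, Complex.div_ofReal_im, Complex.log_im]
      rw [this]
      have := Complex.neg_pi_lt_arg t
      linarith
    · have : (Complex.log t / 2).im = t.arg / 2 := by
        rw [show (2 : ℂ) = ((2 : ℝ) : ℂ) by norm_num, Complex.div_ofReal_im, Complex.log_im]
      rw [this]
      have := lt_of_le_of_ne (Complex.arg_le_pi t) harg
      linarith
  set u : ℂ := v / 2 with hu
  have hu2 : 4 * u ^ 2 = t := by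
    rw [hu, div_pow, ← hv2]
    ring
  have hure : 0 < u.re := by
    rw [hu, show (2 : ℂ) = ((2 : ℝ) : ℂ) by norm_num, Complex.div_ofReal_re]
    linarith
  have hnu : ‖u‖ ^ 2 * 4 = ‖t‖ := by
    rw [← hu2, norm_mul, norm_pow]
    norm_num
    ring
  have hnd : ‖u‖ < δ := by
    by_contra hc
    push Not at hc
    have : δ ^ 2 ≤ ‖u‖ ^ 2 := pow_le_pow_left₀ hδ.le hc 2
    linarith
  have hn1 : ‖u ^ 2‖ < 1 := by
    rw [norm_pow]
    linarith
  set s : ℂ := Complex.exp (Complex.log (1 + u ^ 2) / 2) with hs'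
  have hne : (1 : ℂ) + u ^ 2 ≠ 0 := by
    intro h
    have : u ^ 2 = -1 := by linear_combination h
    rw [this] at hn1
    simp at hn1
  have hs2 : s ^ 2 = 1 + u ^ 2 := by
    rw [hs', ← Complex.exp_nat_mul]
    push_cast
    rw [mul_div_cancel₀ _ (two_ne_zero)]
    exact Complex.exp_log hne
  have hprod : (u + s) * (s - u) = 1 := by linear_combination hs2
  have hus : u + s ≠ 0 := left_ne_zero_of_mul_eq_one hprod
  set φ : ℂ := Complex.log (u + s) with hφ
  have he : Complex.exp φ = u + s := Complex.exp_log hus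
  have he' : Complex.exp (-φ) = s - u := by
    rw [Complex.exp_neg, he]
    exact inv_eq_of_mul_eq_one_right hprod
  have hsinh : Complex.sinh φ = u := by
    rw [Complex.sinh, he, he']
    ring
  have hd' := hd (x := u) (by rw [dist_zero_right]; exact hnd)
  have h0 : Complex.log (0 + Complex.exp (Complex.log (1 + (0 : ℂ) ^ 2) / 2)) = 0 := by simp
  rw [h0, dist_zero_right] at hd'
  change ‖φ‖ < _ at hd'
  have hre : |φ.re| < min (min Φ θ₀) 1 := lt_of_le_of_lt (Complex.abs_re_le_norm φ) hd'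
  have him : |φ.im| < min (min Φ θ₀) 1 := lt_of_le_of_lt (Complex.abs_im_le_norm φ) hd'
  have hre1 : |φ.re| < Φ := lt_of_lt_of_le hre ((min_le_left _ _).trans (min_le_left _ _))
  have him1 : |φ.im| < θ₀ := lt_of_lt_of_le him ((min_le_left _ _).trans (min_le_right _ _))
  have him2 : |φ.im| < 1 := lt_of_lt_of_le him (min_le_right _ _)
  refine ⟨φ.re, φ.im, ?_, ((le_abs_self _).trans hre1.le), him1.le, ?_⟩
  · have h1 : u.re = Real.sinh φ.re * Real.cos φ.im := by
      rw [← hsinh]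
      conv_lhs => rw [← Complex.re_add_im φ]
      rw [Complex.sinh_add, Complex.sinh_mul_I, Complex.cosh_mul_I]
      simp [Complex.sinh_ofReal_re, Complex.cos_ofReal_re]
    have hcos : 0 < Real.cos φ.im := by
      refine Real.cos_pos_of_mem_Ioo ⟨?_, ?_⟩
      · have := (abs_lt.1 him2).1
        have := Real.pi_gt_three
        linarith
      · have := (abs_lt.1 him2).2
        have := Real.pi_gt_three
        linarith
    rw [h1] at hure
    exact Real.sinh_pos_iff.1 ((mul_pos_iff_of_pos_right hcos).1 hure)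
  · unfold T
    rw [Complex.re_add_im, hsinh]
    exact hu2

end EVC
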