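import Pool.Agent.Helper3.EVC.E01
import Pool.Agent.Helper3.EVC.E02

set_option autoImplicit false

namespace EVC

open Polynomial

namespace E03

/-- exponent which absorbs the constant `q` -/
noncomputable def K (q : ℝ) : ℝ := |Real.log q| / Real.log 2

theorem K_nonneg (q : ℝ) : 0 ≤ K q :=
  div_nonneg (abs_nonneg _) (Real.log_nonneg (by norm_num))

theorem bd {q : ℝ} (hq : 0 < q) {L : ℕ} (hL : 2 ≤ L) :
    Real.exp (-(K q * Real.log L)) ≤ q ∧ q ≤ Real.exp (K q * Real.log L) := by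
  have h2 : 0 < Real.log 2 := Real.log_pos (by norm_num)
  have hLL : Real.log 2 ≤ Real.log L := Real.log_le_log (by norm_num) (by exact_mod_cast hL)
  have h3 : |Real.log q| ≤ K q * Real.log L := by
    unfold K
    rw [div_mul_eq_mul_div, le_div_iff₀ h2]
    exact mul_le_mul_of_nonneg_left hLL (abs_nonneg _)
  constructor
  · rw [← Real.le_log_iff_exp_le hq]
    linarith [neg_abs_le (Real.log q)]
  · rw [← Real.log_le_iff_le_exp hq]
    linarith [le_abs_self (Real.log q)]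

theorem pow_ge {a : ℕ} {c₁ : ℝ} (h1 : 0 < c₁) {L : ℕ} (hL : 2 ≤ L) {r x : ℝ}
    (hr : 1 / (L : ℝ) ^ 2 ≤ r) (hx : c₁ * √r ≤ x) :
    Real.exp (-(a * (K c₁ + 1) * Real.log L)) ≤ x ^ a := by
  have hL0 : (0 : ℝ) < L := by
    have : (2 : ℝ) ≤ L := by exact_mod_cast hL
    linarith
  have hs : 1 / (L : ℝ) ≤ √r := by
    apply Real.le_sqrt_of_sq_le
    rw [div_pow, one_pow]
    exact hr
  have h3 : Real.exp (-((K c₁ + 1) * Real.log L)) ≤ x := by
    have h4 : Real.exp (-((K c₁ + 1) * Real.log L)) =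
        Real.exp (-(K c₁ * Real.log L)) * (1 / L) := by
      rw [add_mul, one_mul, neg_add, Real.exp_add, Real.exp_neg (Real.log L), Real.exp_log hL0,
        one_div]
    rw [h4]
    calc _ ≤ c₁ * √r := mul_le_mul (bd h1 hL).1 hs (by positivity) h1.le
      _ ≤ x := hx
  calc _ = (Real.exp (-((K c₁ + 1) * Real.log L))) ^ a := by
        rw [← Real.exp_nat_mul]
        congr 1
        ring
    _ ≤ x ^ a := pow_le_pow_left₀ (Real.exp_pos _).le h3 a

theorem T_A {r : ℝ} (hr : 0 ≤ r) : T (A r) 0 = (r : ℂ) := by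
  unfold T A
  have : (((Real.arsinh (√r / 2) : ℝ) : ℂ) + ((0 : ℝ) : ℂ) * Complex.I) =
      ((Real.arsinh (√r / 2) : ℝ) : ℂ) := by simp
  rw [this, ← Complex.ofReal_sinh, Real.sinh_arsinh]
  rw [← Complex.ofReal_pow, div_pow, Real.sq_sqrt hr]
  push_cast
  ring

theorem eval_nonneg {P : ℝ[X]} (h : ∀ k, 0 ≤ P.coeff k) {r : ℝ} (hr : 0 ≤ r) : 0 ≤ P.eval r := by
  rw [eval_eq_sum_range]
  exact Finset.sum_nonneg fun i _ => mul_nonneg (h i) (pow_nonneg hr i)

theorem aeval_real (P : ℝ[X]) (r : ℝ) : aeval (r : ℂ) P = ((P.eval r : ℝ) : ℂ) := by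
  have := Polynomial.aeval_algebraMap_apply ℂ r P
  simpa using this

theorem A_pos {R : ℝ} (hR : 0 < R) : 0 < A R := by
  unfold A
  rw [Real.arsinh_pos_iff]
  have := Real.sqrt_pos.2 hR
  linarith

theorem A_mono {r R : ℝ} (h : r ≤ R) : A r ≤ A R := by
  unfold A
  rw [Real.arsinh_le_arsinh]
  have := Real.sqrt_le_sqrt h
  linarith

theorem pt_arg (ρ : ℂ) : pt ‖ρ‖ ρ.arg = ρ := by
  unfold pt
  exact Complex.norm_mul_exp_arg_mul_I ρ

theorem aeval_root {P : ℝ[X]} {ρ : ℂ} (h : ρ ∈ Z P) : aeval ρ P = 0 := by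
  have h1 := (mem_roots'.1 h).2
  rwa [IsRoot.def, eval_map_algebraMap] at h1

theorem root_ne_zero {P : ℝ[X]} (h0 : 1 ≤ P.coeff 0) {ρ : ℂ} (h : ρ ∈ Z P) : ρ ≠ 0 := by
  rintro rfl
  have h1 := aeval_root h
  have h2 : aeval (0 : ℂ) P = ((P.coeff 0 : ℝ) : ℂ) := by
    have := aeval_real P 0
    rw [Complex.ofReal_zero] at this
    rw [this, coeff_zero_eq_eval_zero]
  rw [h2] at h1
  have h3 : P.coeff 0 = 0 := by exact_mod_cast h1
  linarith

end E03

open E03 in
theorem good_of_H1 {a : ℕ} {c C R θ₀ : ℝ} (hc : 0 < c) (hC : 0 < C) (hR : 1 ≤ R) (hθ : 0 < θ₀) :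
    ∃ C₁ ψ c' ε : ℝ, Adm C₁ R ψ c' ε ∧ ∀ L : ℕ, 2 ≤ L → ∀ P : ℝ[X], Nice L P →
      H1 a c C (A R) θ₀ L P → Good C₁ R ψ c' ε L P := by
  obtain ⟨ψ, hψ, c₁, hc₁, hgeo⟩ := geo (R := R) (by linarith) hθ
  obtain ⟨ε, hε, hgeo0⟩ := geo0 hθ (A_pos (R := R) (by linarith))
  have hKc := K_nonneg c
  have hKC := K_nonneg C
  have hK1 : 0 ≤ (a : ℝ) * (K c₁ + 1) := mul_nonneg (Nat.cast_nonneg _) (by
    have := K_nonneg c₁
    linarith)
  refine ⟨K c + K C + a * (K c₁ + 1) + 1, min ψ 1, min c₁ 1, min ε 1, ?_, ?_⟩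
  · exact ⟨by linarith, hR, lt_min hψ one_pos, min_le_right _ _, lt_min hc₁ one_pos,
      min_le_right _ _, lt_min hε one_pos, min_le_right _ _⟩
  intro L hL P hN hH
  have hL0 : (0 : ℝ) < L := by
    have : (2 : ℝ) ≤ L := by exact_mod_cast hL
    linarith
  have hlog : 0 ≤ Real.log L := Real.log_nonneg (by
    have : (2 : ℝ) ≤ L := by exact_mod_cast hL
    linarith)
  have hrpos : ∀ r : ℝ, 1 / (L : ℝ) ^ 2 ≤ r → 0 < r := fun r hr =>
    lt_of_lt_of_le (by positivity) hr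
  refine { toNice := hN, lo := ?_, hi := ?_, sec := ?_, neg := ?_ }
  · intro r hr hrR
    have hr0 := hrpos r hr
    obtain ⟨x, y, -, hx1, hx2, -⟩ := hgeo r 0 hr0 hrR (by simpa using hψ.le)
    have hAr : c₁ * √r ≤ A r := by
      have : x ≤ A r := by simpa using hx2
      linarith
    have h1 := (hH (A r) 0 (A_pos hr0) (A_mono hrR) (by simpa using hθ.le)).1
    rw [T_A hr0.le, aeval_real, Complex.norm_real, Real.norm_of_nonneg
      (eval_nonneg hN.nn hr0.le)] at h1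
    refine le_trans ?_ h1
    have h2 := (bd hc hL).1
    have h3 := pow_ge (a := a) hc₁ hL hr hAr
    calc Real.exp (L * A r - (K c + K C + a * (K c₁ + 1) + 1) * Real.log L)
        ≤ Real.exp (-(K c * Real.log L) + -(a * (K c₁ + 1) * Real.log L) + L * A r) := by
          apply Real.exp_le_exp.2
          have := mul_nonneg hKC hlog
          nlinarith
      _ = Real.exp (-(K c * Real.log L)) * Real.exp (-(a * (K c₁ + 1) * Real.log L)) *
          Real.exp (L * A r) := by rw [Real.exp_add, Real.exp_add]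
      _ ≤ c * A r ^ a * Real.exp (L * A r) := by
          apply mul_le_mul_of_nonneg_right _ (Real.exp_pos _).le
          exact mul_le_mul h2 h3 (Real.exp_pos _).le hc.le
  · intro r θ hr hrR hθψ
    have hr0 := hrpos r hr
    obtain ⟨x, y, hy, hx1, hx2, hT⟩ := hgeo r θ hr0 hrR (hθψ.trans (min_le_left _ _))
    have hsq : 0 < √r := Real.sqrt_pos.2 hr0
    have hx0 : 0 < x := lt_of_lt_of_le (mul_pos hc₁ hsq) hx1
    have hxA : x ≤ A r := by
      have : 0 ≤ c₁ * √r * θ ^ 2 := by positivity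
      linarith
    have h1 := (hH x y hx0 (hxA.trans (A_mono hrR)) hy).2
    rw [hT] at h1
    refine le_trans h1 ?_
    have h2 := (bd hC hL).2
    have h3 := pow_ge (a := a) hc₁ hL hr hx1
    have h4 : (x ^ a)⁻¹ ≤ Real.exp (a * (K c₁ + 1) * Real.log L) := by
      rw [Real.exp_neg] at h3
      have := inv_anti₀ (by positivity) h3
      rwa [inv_inv] at this
    have h5 : (L : ℝ) * x ≤ L * A r - min c₁ 1 * L * √r * θ ^ 2 := by
      have h6 : min c₁ 1 * (√r * θ ^ 2) ≤ c₁ * (√r * θ ^ 2) :=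
        mul_le_mul_of_nonneg_right (min_le_left _ _) (by positivity)
      have h7 : x ≤ A r - min c₁ 1 * (√r * θ ^ 2) := by
        linarith
      have h8 := mul_le_mul_of_nonneg_left h7 hL0.le
      calc (L : ℝ) * x ≤ L * (A r - min c₁ 1 * (√r * θ ^ 2)) := h8
        _ = _ := by ring
    calc C * (x ^ a)⁻¹ * Real.exp (L * x)
        ≤ Real.exp (K C * Real.log L) * Real.exp (a * (K c₁ + 1) * Real.log L) *
          Real.exp (L * A r - min c₁ 1 * L * √r * θ ^ 2) := by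
          apply mul_le_mul _ (Real.exp_le_exp.2 h5) (Real.exp_pos _).le (by positivity)
          exact mul_le_mul h2 h4 (by positivity) (by positivity)
      _ = Real.exp (K C * Real.log L + a * (K c₁ + 1) * Real.log L +
          (L * A r - min c₁ 1 * L * √r * θ ^ 2)) := by rw [Real.exp_add, Real.exp_add]
      _ ≤ _ := by
          apply Real.exp_le_exp.2
          have := mul_nonneg hKc hlog
          nlinarith
  · intro ρ hρ hρR
    by_contra hcon
    push Not at hcon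
    have hρ0 : ρ ≠ 0 := root_ne_zero hN.one hρ
    have hn0 : 0 < ‖ρ‖ := norm_pos_iff.2 hρ0
    obtain ⟨x, y, hy, hx1, hx2, hT⟩ := hgeo ‖ρ‖ ρ.arg hn0 hρR
      (hcon.le.trans (min_le_left _ _))
    have hsq : 0 < √‖ρ‖ := Real.sqrt_pos.2 hn0
    have hx0 : 0 < x := lt_of_lt_of_le (mul_pos hc₁ hsq) hx1
    have hxA : x ≤ A ‖ρ‖ := by
      have : 0 ≤ c₁ * √‖ρ‖ * ρ.arg ^ 2 := by positivity
      linarith
    have h1 := (hH x y hx0 (hxA.trans (A_mono hρR)) hy).1
    rw [hT, pt_arg, aeval_root hρ, norm_zero] at h1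
    have : 0 < c * x ^ a * Real.exp (L * x) := by positivity
    linarith
  · intro ρ hρ hρε
    by_contra hcon
    have hρ0 : ρ ≠ 0 := root_ne_zero hN.one hρ
    have hslit : ρ ∈ Complex.slitPlane := by
      rw [Complex.mem_slitPlane_iff]
      by_contra hc'
      push Not at hc'
      apply hcon
      refine ⟨hc'.2, lt_of_le_of_ne hc'.1 ?_⟩
      intro h
      exact hρ0 (Complex.ext h hc'.2)
    obtain ⟨x, y, hx0, hxA, hy, hT⟩ := hgeo0 ρ (lt_of_lt_of_le hρε (min_le_left _ _)) hslit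
    have h1 := (hH x y hx0 hxA hy).1
    rw [hT, aeval_root hρ, norm_zero] at h1
    have : 0 < c * x ^ a * Real.exp (L * x) := by positivity
    linarith

end EVC
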