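import Pool.Agent.Helper3.EVC.Defs

set_option autoImplicit false

namespace EVC

open Polynomial

/-! ## E01, E02: geometry of `t = 4 sinh(x+iy)^2` -/

theorem geo {R θ₀ : ℝ} (hR : 0 < R) (hθ : 0 < θ₀) :
    ∃ ψ > 0, ∃ c > 0, ∀ r θ : ℝ, 0 < r → r ≤ R → |θ| ≤ ψ →
      ∃ x y : ℝ, |y| ≤ θ₀ ∧ c * √r ≤ x ∧ x ≤ A r - c * √r * θ ^ 2 ∧ T x y = pt r θ := sorry

theorem geo0 {θ₀ Φ : ℝ} (hθ : 0 < θ₀) (hΦ : 0 < Φ) :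
    ∃ ε > 0, ∀ t : ℂ, ‖t‖ < ε → t ∈ Complex.slitPlane →
      ∃ x y : ℝ, 0 < x ∧ x ≤ Φ ∧ |y| ≤ θ₀ ∧ T x y = t := sorry

/-! ## E03 -/

theorem good_of_H1 {a : ℕ} {c C R θ₀ : ℝ} (hc : 0 < c) (hC : 0 < C) (hR : 1 ≤ R) (hθ : 0 < θ₀) :
    ∃ C₁ ψ c' ε : ℝ, Adm C₁ R ψ c' ε ∧ ∀ L : ℕ, 2 ≤ L → ∀ P : ℝ[X], Nice L P →
      H1 a c C (A R) θ₀ L P → Good C₁ R ψ c' ε L P := sorry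

/-! ## E04 Jensen, E05 -/

theorem jensen {L : ℕ} {P : ℝ[X]} (h : Nice L P) {r : ℝ} (hr : 0 < r) :
    (2 : ℝ) ^ (cnt P r) ≤ P.eval (2 * r) := sorry

theorem M_le {C₁ R ψ c ε : ℝ} (h : Adm C₁ R ψ c ε) : ∃ K : ℝ, 1 ≤ K ∧ ∀ L : ℕ, 2 ≤ L →
    ∀ P : ℝ[X], Good C₁ R ψ c ε L P → ∀ r : ℝ, 1 / (L : ℝ) ^ 2 ≤ r → r ≤ R →
      M P r ≤ K * (L * √r + Real.log L) := sorry

/-! ## E06 -/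

theorem dist_ge {C₁ R ψ c ε : ℝ} (h : Adm C₁ R ψ c ε) : ∃ b : ℝ, 0 < b ∧ b ≤ 1 ∧ ∀ L : ℕ,
    ∀ P : ℝ[X], Good C₁ R ψ c ε L P → ∀ ρ ∈ Z P, ∀ r : ℝ, 0 < r → r ≤ R / 2 →
      b * (r + ‖ρ‖) ≤ ‖(r : ℂ) - ρ‖ := sorry

/-! ## E07 -/

theorem prod_formula {L : ℕ} {P : ℝ[X]} (h : Nice L P) {r : ℝ} (θ : ℝ) (hr : 0 < r) :
    aeval (pt r θ) P = ((P.eval r : ℝ) : ℂ) *
      ((Z P).map fun ρ => 1 + (Complex.exp (θ * Complex.I) - 1) * p r ρ).prod := sorry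

theorem sq_formula {L : ℕ} {P : ℝ[X]} (h : Nice L P) {r : ℝ} (θ : ℝ) (hr : 0 < r) :
    ((‖aeval (pt r θ) P‖ ^ 2 : ℝ) : ℂ) = ((P.eval r) ^ 2 : ℝ) *
      ((Z P).map fun ρ => 1 - 2 * (1 - (Real.cos θ : ℂ)) * (p r ρ * (1 - p r ρ))).prod := sorry

theorem mean_eq {L : ℕ} {P : ℝ[X]} (h : Nice L P) {r : ℝ} (hr : 0 < r) :
    ((Z P).map fun ρ => p r ρ).sum = (mean P r : ℂ) := sorry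

theorem V_eq {L : ℕ} {P : ℝ[X]} (h : Nice L P) {r : ℝ} (hr : 0 < r) :
    ((Z P).map fun ρ => p r ρ * (1 - p r ρ)).sum = (V P r : ℂ) := sorry

/-! ## E08 -/

theorem log_exp {B : ℝ} (hB : 1 ≤ B) : ∃ θ₂ : ℝ, 0 < θ₂ ∧ ∃ K : ℝ, 0 < K ∧ ∀ q : ℂ, ‖q‖ ≤ B →
    ∀ θ : ℝ, |θ| ≤ θ₂ → ∃ f : ℂ, Complex.exp f = 1 + (Complex.exp (θ * Complex.I) - 1) * q ∧
      ‖f - θ * Complex.I * q + (θ : ℂ) ^ 2 / 2 * (q * (1 - q))‖ ≤ K * ‖q * (1 - q)‖ * |θ| ^ 3 := sorry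

/-! ## E10 -/

theorem local_form {B : ℝ} (hB : 1 ≤ B) : ∃ θ₂ : ℝ, 0 < θ₂ ∧ ∃ K : ℝ, 0 < K ∧ ∀ (L : ℕ) (P : ℝ[X]),
    Nice L P → ∀ r : ℝ, 0 < r → (∀ ρ ∈ Z P, ‖p r ρ‖ ≤ B) → ∀ θ : ℝ, |θ| ≤ θ₂ → ∃ w : ℂ,
      ‖w‖ ≤ K * W P r * |θ| ^ 3 ∧
      aeval (pt r θ) P = ((P.eval r : ℝ) : ℂ) *
        Complex.exp (θ * mean P r * Complex.I - (θ : ℂ) ^ 2 / 2 * V P r + w) := sorry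

/-! ## E11 -/

theorem VW {C₁ R ψ c ε : ℝ} (h : Adm C₁ R ψ c ε) : ∃ c₈ K C₈ : ℝ, 0 < c₈ ∧ 0 < K ∧ 2 ≤ C₈ ∧
    ∀ L : ℕ, 2 ≤ L → ∀ P : ℝ[X], Good C₁ R ψ c ε L P → ∀ r : ℝ, 0 < r →
      C₈ * Real.log L ≤ L * √r → r ≤ R / 2 →
        c₈ * (L * √r) ≤ V P r ∧ W P r ≤ K * (L * √r) := sorry

/-! ## E13 -/

theorem tail_small {C₁ R ψ c ε : ℝ} (h : Adm C₁ R ψ c ε) : ∃ r₁ c₉ C₉ : ℝ, 0 < r₁ ∧ r₁ ≤ R / 2 ∧ 0 < c₉ ∧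
    2 ≤ C₉ ∧ ∀ L : ℕ, 2 ≤ L → ∀ P : ℝ[X], Good C₁ R ψ c ε L P → ∀ r : ℝ, 0 < r →
      C₉ * Real.log L ≤ L * √r → r ≤ r₁ → ∀ θ : ℝ, |θ| ≤ Real.pi →
        ‖aeval (pt r θ) P‖ ≤ Real.exp (-(c₉ * (L * √r) * θ ^ 2)) * P.eval r := sorry

/-! ## E14: saddle point (helper92) -/

theorem saddle (d C3 C2 c2 : ℝ) (hd : 0 < d) (h3 : 0 < C3) (h2 : 0 < C2) (hc2 : 0 < c2)
    (hd1 : 4 * C3 * d ≤ 1) :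
    ∃ V0 : ℝ, ∀ P : ℝ[X], (∀ j, 0 ≤ P.coeff j) → ∀ k : ℕ, 1 ≤ k → ∀ r v : ℝ, 0 < r → V0 ≤ v →
      0 < P.eval r →
      (∀ x : ℝ, |x| ≤ d → ∃ l : ℂ, ‖l‖ ≤ C3 * v * |x| ^ 3 ∧ aeval (pt r x) P =
        ((P.eval r : ℝ) : ℂ) * Complex.exp (k * x * Complex.I - v * x ^ 2 / 2 + l)) →
      (∀ x : ℝ, d ≤ |x| → |x| ≤ Real.pi →
        ‖aeval (pt r x) P‖ ≤ C2 * Real.exp (-(c2 * v)) * P.eval r) →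
      P.coeff (k - 1) * P.coeff (k + 1) < P.coeff k ^ 2 := sorry

/-! ## E15: bulk -/

theorem bulk {C₁ R ψ c ε : ℝ} (h : Adm C₁ R ψ c ε) : ∃ r₁ : ℝ, 0 < r₁ ∧ ∀ c₃ C₃ : ℝ, 0 < c₃ →
    ∃ C₈ : ℝ, 2 ≤ C₈ ∧ ∃ L₀ : ℕ, ∀ L : ℕ, L₀ ≤ L → ∀ P : ℝ[X], Good C₁ R ψ c ε L P →
      H3 c₃ C₃ r₁ R L P → ∀ r : ℝ, 0 < r → C₈ * Real.log L ≤ L * √r → r ≤ R / 2 →
        ∀ k : ℕ, 1 ≤ k → mean P r = k → P.coeff (k - 1) * P.coeff (k + 1) < P.coeff k ^ 2 := sorry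

/-! ## E16: many real zeros near 0 -/

theorem cnt_ge {C₁ R ψ c ε : ℝ} (h : Adm C₁ R ψ c ε) : ∃ c₁₀ C₁₀ : ℝ, 0 < c₁₀ ∧ 0 < C₁₀ ∧
    ∀ L : ℕ, 2 ≤ L → ∀ P : ℝ[X], Good C₁ R ψ c ε L P → ∀ σ : ℝ, 0 < σ → C₁₀ ≤ L * √σ → σ < ε → σ ≤ R / 2 →
      c₁₀ * (L * √σ) - C₁₀ * Real.log L ≤ cnt P σ := sorry

/-! ## E17: elementary symmetric functions -/

theorem esymm_newton (S : Multiset ℝ) (hS : ∀ x ∈ S, 0 ≤ x) (k : ℕ) (hk : 1 ≤ k) :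
    (k + 1 : ℝ) * (S.esymm (k - 1) * S.esymm (k + 1)) ≤ k * S.esymm k ^ 2 := sorry

open Classical in
theorem esymm_ratio (S : Multiset ℝ) (hS : ∀ x ∈ S, 0 ≤ x) {σ : ℝ} (hσ : 0 < σ) (m : ℕ)
    (hm : 2 * m ≤ (S.filter (fun x => 1 / σ ≤ x)).card) (k : ℕ) (hk : 1 ≤ k) (hkm : k ≤ m) :
    S.esymm (k - 1) ≤ σ * S.esymm k := sorry

/-! ## E18: factorisation `P = P(0) · (near) · (far)` on the level of coefficients -/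

open Classical in
theorem coeff_split {L : ℕ} {P : ℝ[X]} (h : Nice L P) {ε : ℝ} (hε : 0 < ε)
    (hneg : ∀ ρ ∈ Z P, ‖ρ‖ < ε → ρ.im = 0 ∧ ρ.re < 0) : ∃ S : Multiset ℝ, ∃ β : ℕ → ℂ,
      (∀ x ∈ S, 0 < x) ∧ (∀ σ : ℝ, 0 < σ → σ < ε → (S.filter (fun x => 1 / σ ≤ x)).card = cnt P σ) ∧
      β 0 = 1 ∧ (∀ j, ‖β j‖ ≤ (L / ε) ^ j) ∧
      ∀ k : ℕ, (P.coeff k : ℂ) = P.coeff 0 *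
        ∑ j ∈ Finset.range (k + 1), (S.esymm (k - j) : ℂ) * β j := sorry

/-! ## E19: low coefficients -/

theorem low {C₁ R ψ c ε : ℝ} (h : Adm C₁ R ψ c ε) (J : ℝ) : ∃ L₀ : ℕ, ∀ L : ℕ, L₀ ≤ L →
    ∀ P : ℝ[X], Good C₁ R ψ c ε L P → ∀ k : ℕ, 1 ≤ k → (k : ℝ) ≤ J * Real.log L →
      P.coeff (k - 1) * P.coeff (k + 1) ≤ P.coeff k ^ 2 := sorry

/-! ## E20: the mean -/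

theorem mean_le {C₁ R ψ c ε : ℝ} (h : Adm C₁ R ψ c ε) : ∃ K : ℝ, 0 < K ∧ ∀ L : ℕ, 2 ≤ L →
    ∀ P : ℝ[X], Good C₁ R ψ c ε L P → ∀ r : ℝ, 1 / (L : ℝ) ^ 2 ≤ r → r ≤ R / 2 →
      mean P r ≤ K * (L * √r + Real.log L) := sorry

theorem mean_top {δ : ℝ} (hδ : 0 < δ) : ∃ R₀ : ℝ, 1 ≤ R₀ ∧ ∀ R : ℝ, R₀ ≤ R → ∀ C₁ ψ c ε : ℝ,
    Adm C₁ R ψ c ε → ∃ L₀ : ℕ, ∀ L : ℕ, L₀ ≤ L → ∀ P : ℝ[X], Good C₁ R ψ c ε L P →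
      P.natDegree - δ * L ≤ mean P (R / 2) := sorry

end EVC
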